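import Mathlib

/-!
A polynomial with few coefficient functions vanishing to high order along a moving point is zero.
-/

namespace Pool.Agent.H626R2.Orb

open Polynomial

section

variable {F M : Type*} [Field F] [CommRing M] [Algebra F M]

/-- the coefficientwise extension of a derivation -/
noncomputable def mapD (d : Derivation F M M) : Derivation F M[X] M[X] :=
  PolynomialModule.equivPolynomialSelf.compDer d.mapCoeffs

theorem mapD_monomial (d : Derivation F M M) (n : ℕ) (x : M) :
    mapD d (monomial n x) = monomial n (d x) := by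
  simp [mapD]

theorem mapD_C (d : Derivation F M M) (x : M) : mapD d (C x) = C (d x) := by
  have := mapD_monomial d 0 x
  simpa using this

theorem mapD_X (d : Derivation F M M) : mapD d (X : M[X]) = 0 := by
  have := mapD_monomial d 1 (1 : M)
  simpa [monomial_one_one_eq_X] using this

theorem mapD_map (d : Derivation F M M) (p : F[X]) : mapD d (p.map (algebraMap F M)) = 0 := by
  induction p using Polynomial.induction_on' with
  | add p q hp hq => rw [Polynomial.map_add, map_add, hp, hq, add_zero]
  | monomial n a =>
    rw [Polynomial.map_monomial, mapD_monomial, d.map_algebraMap, map_zero]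

end

section

variable {F M : Type*} [Field F] [CommRing M] [IsDomain M] [CharZero M] [Algebra F M]

/-- one step: a first order relation with nonvanishing leading coefficient raises the
multiplicity -/
theorem raise_mult (d : Derivation F M M) {g : M} (hg : d g ≠ 0) {P : M[X]} {h h' : M}
    (hh : h ≠ 0) (hrel : C h * mapD d P = C h' * P) {N : ℕ}
    (hdvd : (X - C g) ^ (N + 1) ∣ P) : (X - C g) ^ (N + 2) ∣ P := by
  obtain ⟨Y, hY⟩ := hdvd
  have hne : (X - C g : M[X]) ≠ 0 := X_sub_C_ne_zero g
  have h1 : mapD d P = (X - C g) ^ N * (((N + 1 : ℕ) : M[X]) * (- C (d g)) * Y + (X - C g) * mapD d Y) := by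
    rw [hY, Derivation.leibniz, Derivation.leibniz_pow, map_sub, mapD_X, mapD_C, zero_sub,
      Nat.add_sub_cancel]
    simp only [smul_eq_mul, nsmul_eq_mul]
    ring
  have h2 : (X - C g) ^ N * (C h * (((N + 1 : ℕ) : M[X]) * (- C (d g)) * Y + (X - C g) * mapD d Y)) =
      (X - C g) ^ N * (C h' * ((X - C g) * Y)) := by
    calc (X - C g) ^ N * (C h * (((N + 1 : ℕ) : M[X]) * (- C (d g)) * Y + (X - C g) * mapD d Y))
        = C h * mapD d P := by rw [h1]; ring
      _ = C h' * P := hrel
      _ = _ := by rw [hY]; ring
  have h3 := mul_left_cancel₀ (pow_ne_zero N hne) h2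
  have h4 : (X - C g) ∣ C (h * (((N + 1 : ℕ) : M) * (d g))) * Y := by
    refine ⟨C h * mapD d Y - C h' * Y, ?_⟩
    rw [map_mul, map_mul, map_natCast]
    linear_combination -h3
  rw [dvd_iff_isRoot, IsRoot.def, eval_mul, eval_C] at h4
  have h5 : h * (((N + 1 : ℕ) : M) * (d g)) ≠ 0 := by
    refine mul_ne_zero hh (mul_ne_zero ?_ hg)
    exact_mod_cast Nat.succ_ne_zero N
  have h6 : Y.eval g = 0 := by
    rcases mul_eq_zero.1 h4 with h | h
    · exact absurd h h5
    · exact h
  obtain ⟨W, hW⟩ := dvd_iff_isRoot.2 h6
  exact ⟨W, by rw [hY, hW]; ring⟩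

/-- A polynomial combination of `card S` coefficient functions with constant coefficients that
vanishes to order `card S` at a nonconstant point is zero. -/
theorem wron (d : Derivation F M M) {g : M} (hg : d g ≠ 0) {β : Type*} [DecidableEq β]
    (φ : β → F[X]) : ∀ (r : ℕ) (S : Finset β) (h : β → M), S.card = r →
      (X - C g) ^ r ∣ (∑ b ∈ S, C (h b) * (φ b).map (algebraMap F M)) →
      ∑ b ∈ S, C (h b) * (φ b).map (algebraMap F M) = 0 := by
  intro r
  induction r with
  | zero =>
    intro S h hS _
    rw [Finset.card_eq_zero] at hS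
    rw [hS, Finset.sum_empty]
  | succ r ih =>
    intro S h hS hdvd
    by_cases hall : ∀ b ∈ S, h b = 0
    · refine Finset.sum_eq_zero fun b hb => ?_
      rw [hall b hb, map_zero, zero_mul]
    push Not at hall
    obtain ⟨b0, hb0, hh0⟩ := hall
    set P := ∑ b ∈ S, C (h b) * (φ b).map (algebraMap F M) with hP
    have hDP : mapD d P = ∑ b ∈ S, C (d (h b)) * (φ b).map (algebraMap F M) := by
      rw [hP, map_sum]
      apply Finset.sum_congr rfl
      intro b _
      rw [Derivation.leibniz, mapD_map, mapD_C, smul_zero, zero_add, smul_eq_mul, mul_comm]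
    have hdvdD : (X - C g) ^ r ∣ mapD d P := by
      obtain ⟨Y, hY⟩ := hdvd
      refine ⟨((r + 1 : ℕ) : M[X]) * (- C (d g)) * Y + (X - C g) * mapD d Y, ?_⟩
      rw [hY, Derivation.leibniz, Derivation.leibniz_pow, map_sub, mapD_X, mapD_C, zero_sub,
        Nat.add_sub_cancel]
      simp only [smul_eq_mul, nsmul_eq_mul]
      ring
    have hred : C (h b0) * mapD d P - C (d (h b0)) * P =
        ∑ b ∈ S.erase b0, C (h b0 * d (h b) - d (h b0) * h b) * (φ b).map (algebraMap F M) := by
      rw [hDP, hP, Finset.mul_sum, Finset.mul_sum, ← Finset.sum_sub_distrib,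
        ← Finset.add_sum_erase S _ hb0]
      have h0 : C (h b0) * (C (d (h b0)) * (φ b0).map (algebraMap F M)) -
          C (d (h b0)) * (C (h b0) * (φ b0).map (algebraMap F M)) = 0 := by ring
      rw [h0, zero_add]
      apply Finset.sum_congr rfl
      intro b _
      rw [map_sub, map_mul, map_mul]
      ring
    have hz := ih (S.erase b0) (fun b => h b0 * d (h b) - d (h b0) * h b)
      (by rw [Finset.card_erase_of_mem hb0, hS]; rfl) (by
        rw [← hred]
        exact dvd_sub (Dvd.dvd.mul_left hdvdD _)
          (Dvd.dvd.mul_left ((pow_dvd_pow _ (Nat.le_succ r)).trans hdvd) _))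
    have hrel : C (h b0) * mapD d P = C (d (h b0)) * P := by
      rw [← sub_eq_zero, hred]
      exact hz
    have hall' : ∀ N : ℕ, (X - C g) ^ (N + 1) ∣ P := by
      intro N
      induction N with
      | zero =>
        exact (pow_dvd_pow _ (by omega)).trans hdvd
      | succ N ihN => exact raise_mult d hg hh0 hrel ihN
    by_contra hne
    have h1 := natDegree_le_of_dvd (hall' P.natDegree) hne
    rw [natDegree_pow, natDegree_X_sub_C, mul_one] at h1
    omega

end

end Pool.Agent.H626R2.Orb
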