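import Mathlib
import Pool.Agent.H626R2.Orb.Wron
import Pool.Agent.H530R2.Jet1

/-!
Hybrid substitutions for affine forms on the secant generator of the moment curve.
-/

namespace Pool.Agent.H626R2.Orb

open MvPolynomial

section

variable {F : Type*} [Field F] {n : ℕ}

/-- The big ring: `inl i` are the free variables, `inr (inl t)` the seeds `y_t` and
`inr (inr t)` the seeds `z_t`. -/
abbrev BR (F : Type*) [Field F] (n : ℕ) := MvPolynomial (Fin n ⊕ (ℕ ⊕ ℕ)) F

/-- the variable `y_t` -/
noncomputable abbrev yv (F : Type*) [Field F] (n : ℕ) (t : ℕ) : BR F n := X (Sum.inr (Sum.inl t))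

/-- the variable `z_t` -/
noncomputable abbrev zv (F : Type*) [Field F] (n : ℕ) (t : ℕ) : BR F n := X (Sum.inr (Sum.inr t))

variable (b : Fin n → F) (L : Fin n → Polynomial F)

/-- The value of the `i`-th affine form on the generator with `j` seed pairs. -/
noncomputable def G (j : ℕ) (i : Fin n) : BR F n :=
  C (b i) + ∑ t ∈ Finset.range j, yv F n t * Polynomial.aeval (zv F n t) (L i)

/-- The variables in `Z` are free, the others are on the generator with `j` seed pairs. -/
noncomputable def hy (j : ℕ) (Z : Finset (Fin n)) : MvPolynomial (Fin n) F →ₐ[F] BR F n :=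
  aeval fun i => if i ∈ Z then X (Sum.inl i) else G b L j i

theorem hy_X_mem (j : ℕ) {Z : Finset (Fin n)} {i : Fin n} (h : i ∈ Z) :
    hy b L j Z (X i) = X (Sum.inl i) := by
  simp [hy, h]

theorem hy_X_not_mem (j : ℕ) {Z : Finset (Fin n)} {i : Fin n} (h : i ∉ Z) :
    hy b L j Z (X i) = G b L j i := by
  simp [hy, h]

theorem hy_C (j : ℕ) (Z : Finset (Fin n)) (r : F) : hy b L j Z (C r) = C r := by
  simp only [hy, MvPolynomial.algHom_C, MvPolynomial.algebraMap_eq]

theorem hy_empty (j : ℕ) : hy b L j ∅ = aeval (G b L j) := by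
  apply MvPolynomial.algHom_ext
  intro i
  rw [hy_X_not_mem b L j (by simp), aeval_X]

/-- a chain rule for algebra maps and derivations -/
theorem chain_rule {B : Type*} [CommRing B] [Algebra F B] (φ : MvPolynomial (Fin n) F →ₐ[F] B)
    (D : Derivation F B B) (Q : MvPolynomial (Fin n) F) :
    D (φ Q) = ∑ i, φ (pderiv i Q) * D (φ (X i)) := by
  classical
  induction Q using MvPolynomial.induction_on with
  | C r =>
    have h : φ (C r) = algebraMap F B r := φ.commutes r
    rw [h, D.map_algebraMap]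
    simp
  | add p q hp hq =>
    rw [map_add, map_add, hp, hq, ← Finset.sum_add_distrib]
    apply Finset.sum_congr rfl
    intro i _
    rw [map_add, map_add, add_mul]
  | mul_X p k hp =>
    rw [map_mul, Derivation.leibniz, hp, smul_eq_mul, smul_eq_mul, Finset.mul_sum]
    have h1 : ∀ i, φ (pderiv i (p * X k)) * D (φ (X i)) =
        φ (X k) * (φ (pderiv i p) * D (φ (X i))) +
          (if i = k then φ p * D (φ (X k)) else 0) := by
      intro i
      rw [pderiv_mul, map_add, map_mul, map_mul, pderiv_X]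
      by_cases hik : i = k
      · subst hik
        rw [if_pos rfl]
        simp
        ring
      · rw [if_neg hik, Pi.single_eq_of_ne' hik, map_zero]
        ring
    simp only [h1]
    rw [Finset.sum_add_distrib, Finset.sum_ite_eq' Finset.univ k, if_pos (Finset.mem_univ k)]
    ring

theorem hy_supported (j : ℕ) {Z : Finset (Fin n)} {Q : MvPolynomial (Fin n) F}
    (h : Q ∈ supported F (Z : Set (Fin n))) :
    hy b L j Z Q = rename Sum.inl Q := by
  have h' : Q ∈ Algebra.adjoin F (X '' (Z : Set (Fin n)) : Set (MvPolynomial (Fin n) F)) := h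
  clear h
  induction h' using Algebra.adjoin_induction with
  | mem x hx =>
    obtain ⟨i, hi, rfl⟩ := hx
    rw [hy_X_mem b L j (by simpa using hi), rename_X]
  | algebraMap r =>
    have : (algebraMap F (MvPolynomial (Fin n) F)) r = C r := rfl
    rw [this, hy_C, rename_C]
  | add x y _ _ hx hy' => rw [map_add, map_add, hx, hy']
  | mul x y _ _ hx hy' => rw [map_mul, map_mul, hx, hy']

theorem hy_supported_eq_zero (j : ℕ) {Z : Finset (Fin n)} {Q : MvPolynomial (Fin n) F}
    (h : Q ∈ supported F (Z : Set (Fin n))) (h0 : hy b L j Z Q = 0) : Q = 0 := by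
  rw [hy_supported b L j h] at h0
  exact rename_injective _ Sum.inl_injective (by rw [h0, map_zero])

/-- two free sets that differ outside the variables of the polynomial -/
theorem hy_insert_of_supported (j : ℕ) {Z : Finset (Fin n)} {i0 : Fin n}
    {Q : MvPolynomial (Fin n) F} (h : Q ∈ supported F {k : Fin n | k ≠ i0}) :
    hy b L j (insert i0 Z) Q = hy b L j Z Q := by
  have h' : Q ∈ Algebra.adjoin F (X '' {k : Fin n | k ≠ i0} : Set (MvPolynomial (Fin n) F)) := h
  clear h
  induction h' using Algebra.adjoin_induction with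
  | mem x hx =>
    obtain ⟨i, hi, rfl⟩ := hx
    have hi' : i ≠ i0 := hi
    by_cases hiZ : i ∈ Z
    · rw [hy_X_mem b L j hiZ, hy_X_mem b L j (Finset.mem_insert_of_mem hiZ)]
    · have hni : i ∉ insert i0 Z := by simp [hi', hiZ]
      rw [hy_X_not_mem b L j hiZ, hy_X_not_mem b L j hni]
  | algebraMap r =>
    have : (algebraMap F (MvPolynomial (Fin n) F)) r = C r := rfl
    rw [this, hy_C, hy_C]
  | add x y _ _ hx hy' => rw [map_add, map_add, hx, hy']
  | mul x y _ _ hx hy' => rw [map_mul, map_mul, hx, hy']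

/-! ### derivatives of the generator -/

theorem pderiv_aeval_zv (v : Fin n ⊕ (ℕ ⊕ ℕ)) (t : ℕ) (hv : v ≠ Sum.inr (Sum.inr t))
    (p : Polynomial F) : pderiv v (Polynomial.aeval (zv F n t) p) = 0 := by
  have h := (pderiv (R := F) v : Derivation F (BR F n) (BR F n)).map_aeval p (zv F n t)
  rw [h, pderiv_X_of_ne hv.symm, smul_zero]

theorem pderiv_inl_G (j : ℕ) (i k : Fin n) : pderiv (Sum.inl k) (G b L j i) = 0 := by
  unfold G
  rw [map_add, pderiv_C, zero_add, map_sum]
  apply Finset.sum_eq_zero
  intro t _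
  rw [pderiv_mul, pderiv_aeval_zv _ _ (by simp), pderiv_X_of_ne (by simp)]
  ring

theorem pderiv_y_G_lt (j : ℕ) (i : Fin n) {s : ℕ} (hs : s < j) :
    pderiv (Sum.inr (Sum.inl s)) (G b L j i) = Polynomial.aeval (zv F n s) (L i) := by
  unfold G
  rw [map_add, pderiv_C, zero_add, map_sum, Finset.sum_eq_single s]
  · rw [pderiv_mul, pderiv_aeval_zv _ _ (by simp), pderiv_X_self]
    ring
  · intro t _ hts
    rw [pderiv_mul, pderiv_aeval_zv _ _ (by simp), pderiv_X_of_ne (by simpa using hts)]
    ring
  · intro h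
    exact absurd (Finset.mem_range.2 hs) h

/-- kill the last `y` and specialise the last `z` -/
noncomputable def spec (F : Type*) [Field F] (n : ℕ) (j : ℕ) (ζ : F) : BR F n →ₐ[F] BR F n :=
  aeval fun v => if v = Sum.inr (Sum.inl j) then 0 else
    if v = Sum.inr (Sum.inr j) then C ζ else X v

theorem spec_X_of_ne (j : ℕ) (ζ : F) (v : Fin n ⊕ (ℕ ⊕ ℕ)) (h1 : v ≠ Sum.inr (Sum.inl j))
    (h2 : v ≠ Sum.inr (Sum.inr j)) : spec F n j ζ (X v) = X v := by
  unfold spec
  rw [aeval_X, if_neg h1, if_neg h2]

theorem spec_y (j : ℕ) (ζ : F) : spec F n j ζ (yv F n j) = 0 := by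
  unfold spec
  rw [aeval_X, if_pos rfl]

theorem spec_z (j : ℕ) (ζ : F) : spec F n j ζ (zv F n j) = C ζ := by
  unfold spec
  rw [aeval_X, if_neg (by simp), if_pos rfl]

theorem spec_aeval (j : ℕ) (ζ : F) (p : Polynomial F) :
    spec F n j ζ (Polynomial.aeval (zv F n j) p) = C (p.eval ζ) := by
  rw [← Polynomial.aeval_algHom_apply, spec_z]
  have : (C ζ : BR F n) = algebraMap F (BR F n) ζ := rfl
  rw [this, Polynomial.aeval_algebraMap_apply]
  simp [MvPolynomial.algebraMap_eq]

theorem spec_G (j : ℕ) (ζ : F) (i : Fin n) : spec F n j ζ (G b L (j + 1) i) = G b L j i := by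
  unfold G
  rw [map_add, map_sum, Finset.sum_range_succ, map_mul, spec_y, zero_mul, add_zero]
  congr 1
  · exact (spec F n j ζ).commutes (b i)
  · apply Finset.sum_congr rfl
    intro t ht
    have htj : t ≠ j := (Finset.mem_range.1 ht).ne
    rw [map_mul, spec_X_of_ne j ζ _ (by simpa using htj) (by simp),
      ← Polynomial.aeval_algHom_apply, spec_X_of_ne j ζ _ (by simp) (by simpa using htj)]

theorem spec_hy (j : ℕ) (ζ : F) (Z : Finset (Fin n)) (Q : MvPolynomial (Fin n) F) :
    spec F n j ζ (hy b L (j + 1) Z Q) = hy b L j Z Q := by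
  have h : (spec F n j ζ).comp (hy b L (j + 1) Z) = hy b L j Z := by
    apply MvPolynomial.algHom_ext
    intro i
    rw [AlgHom.comp_apply]
    by_cases hi : i ∈ Z
    · rw [hy_X_mem b L _ hi, hy_X_mem b L _ hi, spec_X_of_ne j ζ _ (by simp) (by simp)]
    · rw [hy_X_not_mem b L _ hi, hy_X_not_mem b L _ hi, spec_G]
  rw [← h, AlgHom.comp_apply]

theorem hy_mono_one (j : ℕ) (Z : Finset (Fin n)) {Q : MvPolynomial (Fin n) F}
    (h : hy b L (j + 1) Z Q = 0) : hy b L j Z Q = 0 := by
  rw [← spec_hy b L j 0, h, map_zero]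

theorem hy_mono {j j' : ℕ} (hj : j ≤ j') (Z : Finset (Fin n)) {Q : MvPolynomial (Fin n) F}
    (h : hy b L j' Z Q = 0) : hy b L j Z Q = 0 := by
  induction j', hj using Nat.le_induction with
  | base => exact h
  | succ m _ ih => exact ih (hy_mono_one b L m Z h)

/-- One seed pair buys the whole gradient. -/
theorem hy_grad [CharZero F] (hL : LinearIndependent F L) (j : ℕ) (Z : Finset (Fin n))
    {Q : MvPolynomial (Fin n) F} (h : hy b L (j + 1) Z Q = 0) (i : Fin n) (hi : i ∉ Z) :
    hy b L j Z (pderiv i Q) = 0 := by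
  classical
  -- the relation after specialisation
  have key : ∀ ζ : F, ∑ k, C (if k ∈ Z then 0 else (L k).eval ζ) * hy b L j Z (pderiv k Q) = 0 := by
    intro ζ
    have h1 := chain_rule (hy b L (j + 1) Z) (pderiv (Sum.inr (Sum.inl j))) Q
    rw [h, map_zero] at h1
    have h2 := congrArg (spec F n j ζ) h1
    rw [map_zero, map_sum] at h2
    rw [h2]
    apply Finset.sum_congr rfl
    intro k _
    rw [map_mul, spec_hy, mul_comm]
    congr 1
    by_cases hk : k ∈ Z
    · rw [if_pos hk, hy_X_mem b L _ hk, pderiv_X_of_ne (by simp), map_zero, map_zero]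
    · rw [if_neg hk, hy_X_not_mem b L _ hk, pderiv_y_G_lt b L _ _ (Nat.lt_succ_self j), spec_aeval]
  ext m
  rw [coeff_zero]
  -- the polynomial relation between the `L k`
  set c : Fin n → F := fun k => if k ∈ Z then 0 else coeff m (hy b L j Z (pderiv k Q)) with hc
  have hrel : ∑ k, c k • L k = 0 := by
    apply Polynomial.funext
    intro ζ
    have h1 := congrArg (coeff m) (key ζ)
    rw [coeff_sum, coeff_zero] at h1
    rw [Polynomial.eval_finsetSum, Polynomial.eval_zero, ← h1]
    apply Finset.sum_congr rfl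
    intro k _
    rw [Polynomial.eval_smul, coeff_C_mul, smul_eq_mul, hc]
    by_cases hk : k ∈ Z
    · simp [hk]
    · simp only [hk, if_false]
      ring
  have := Fintype.linearIndependent_iff.1 hL c hrel i
  rw [hc] at this
  simpa [hi] using this

theorem hy_iter_grad [CharZero F] (hL : LinearIndependent F L) (Z : Finset (Fin n)) (i : Fin n)
    (hi : i ∉ Z) (r : ℕ) : ∀ (j : ℕ) (Q : MvPolynomial (Fin n) F), hy b L (j + r) Z Q = 0 →
      hy b L j Z ((pderiv i)^[r] Q) = 0 := by
  induction r with
  | zero => intro j Q h; exact h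
  | succ r ih =>
    intro j Q h
    rw [Function.iterate_succ_apply]
    exact ih j _ (hy_grad b L hL (j + r) Z h i hi)

/-- derivatives in free directions commute with the substitution -/
theorem pderiv_hy (j : ℕ) {Z : Finset (Fin n)} {k : Fin n} (hk : k ∈ Z)
    (Q : MvPolynomial (Fin n) F) :
    pderiv (Sum.inl k) (hy b L j Z Q) = hy b L j Z (pderiv k Q) := by
  classical
  rw [chain_rule (hy b L j Z) (pderiv (Sum.inl k)) Q, Finset.sum_eq_single k]
  · rw [hy_X_mem b L j hk, pderiv_X_self, mul_one]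
  · intro i _ hik
    by_cases hi : i ∈ Z
    · rw [hy_X_mem b L j hi, pderiv_X_of_ne (by simpa using hik), mul_zero]
    · rw [hy_X_not_mem b L j hi, pderiv_inl_G, mul_zero]
  · intro h
    exact absurd (Finset.mem_univ _) h

end

end Pool.Agent.H626R2.Orb
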