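import Mathlib
import Pool.Agent.H626R2.Orb.OHyb

/-!
Freeing a variable: at the cost of a number of seed pairs, or at no cost in the presence of a first
order linear differential relation.
-/

namespace Pool.Agent.H626R2.Orb

open MvPolynomial

section

variable {F : Type*} [Field F] {n : ℕ}

/-- Polynomials that are combinations of the functions `φ β (X i)` with coefficients not involving
`X i`. -/
noncomputable def InV (i : Fin n) {β : Type*} (φ : β → Polynomial F) :
    Submodule (supported F {k : Fin n | k ≠ i}) (MvPolynomial (Fin n) F) :=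
  Submodule.span _ (Set.range fun β => Polynomial.aeval (X i : MvPolynomial (Fin n) F) (φ β))

theorem mem_InV {i : Fin n} {β : Type*} [Fintype β] {φ : β → Polynomial F}
    {Q : MvPolynomial (Fin n) F} :
    Q ∈ InV i φ ↔ ∃ q : β → MvPolynomial (Fin n) F,
      (∀ β, q β ∈ supported F {k : Fin n | k ≠ i}) ∧
      Q = ∑ β, q β * Polynomial.aeval (X i : MvPolynomial (Fin n) F) (φ β) := by
  unfold InV
  rw [Submodule.mem_span_range_iff_exists_fun]
  constructor
  · rintro ⟨c, hc⟩
    refine ⟨fun β => (c β : MvPolynomial (Fin n) F), fun β => (c β).2, ?_⟩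
    rw [← hc]
    rfl
  · rintro ⟨q, hq, rfl⟩
    exact ⟨fun β => ⟨q β, hq β⟩, rfl⟩

variable (b : Fin n → F) (L : Fin n → Polynomial F)

theorem pderiv_of_supported_ne {i : Fin n} {q : MvPolynomial (Fin n) F}
    (hq : q ∈ supported F {k : Fin n | k ≠ i}) : pderiv i q = 0 := by
  have hD : Set.EqOn (pderiv (R := F) i : MvPolynomial (Fin n) F → _)
      (0 : Derivation F (MvPolynomial (Fin n) F) (MvPolynomial (Fin n) F))
      (X '' {k : Fin n | k ≠ i}) := by
    rintro _ ⟨l, hl, rfl⟩
    rw [pderiv_X_of_ne hl]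
    rfl
  exact Derivation.eqOn_adjoin hD hq

theorem pderiv_aeval_X (i : Fin n) (p : Polynomial F) :
    pderiv i (Polynomial.aeval (X i : MvPolynomial (Fin n) F) p) =
      Polynomial.aeval (X i : MvPolynomial (Fin n) F) (Polynomial.derivative p) := by
  have h := (pderiv (R := F) i : Derivation F (MvPolynomial (Fin n) F) _).map_aeval p (X i)
  rw [h, pderiv_X_self, smul_eq_mul, mul_one]

theorem iter_pderiv_comb {i : Fin n} {ρ : ℕ} (q : Fin ρ → MvPolynomial (Fin n) F)
    (hq : ∀ β, q β ∈ supported F {k : Fin n | k ≠ i}) (m : ℕ) : ∀ φ : Fin ρ → Polynomial F,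
    (pderiv i)^[m] (∑ β, q β * Polynomial.aeval (X i : MvPolynomial (Fin n) F) (φ β)) =
      ∑ β, q β * Polynomial.aeval (X i : MvPolynomial (Fin n) F)
        (Polynomial.derivative^[m] (φ β)) := by
  induction m with
  | zero => intro φ; rfl
  | succ m ih =>
    intro φ
    rw [Function.iterate_succ_apply, map_sum]
    have h1 : ∀ β, pderiv i (q β * Polynomial.aeval (X i : MvPolynomial (Fin n) F) (φ β)) =
        q β * Polynomial.aeval (X i : MvPolynomial (Fin n) F) (Polynomial.derivative (φ β)) := by
      intro β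
      rw [pderiv_mul, pderiv_of_supported_ne (hq β), zero_mul, zero_add, pderiv_aeval_X]
    simp only [h1]
    rw [ih (fun β => Polynomial.derivative (φ β))]
    simp only [Function.iterate_succ_apply]

theorem aeval_zv_ne_zero (t : ℕ) {p : Polynomial F} (hp : p ≠ 0) :
    Polynomial.aeval (zv F n t) p ≠ 0 := by
  have h := (MvPolynomial.transcendental_X F (Sum.inr (Sum.inr t) : Fin n ⊕ (ℕ ⊕ ℕ)))
  intro h0
  exact hp ((transcendental_iff.1 h) p h0)

theorem iterate_derivative_map (m : ℕ) (p : Polynomial F) (B : Type*) [CommRing B] [Algebra F B] :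
    Polynomial.derivative^[m] (p.map (algebraMap F B)) =
      (Polynomial.derivative^[m] p).map (algebraMap F B) := by
  rw [Polynomial.iterate_derivative_map]

/-- A variable can be freed at the cost of as many seed pairs as there are functions of this
variable. -/
theorem hy_free [CharZero F] (hL : LinearIndependent F L) {j : ℕ} (hj : 1 ≤ j)
    (Z : Finset (Fin n)) (i0 : Fin n) {ρ : ℕ} {φ : Fin ρ → Polynomial F}
    {Q : MvPolynomial (Fin n) F} (hQ : Q ∈ InV i0 φ) (h : hy b L (j + ρ) Z Q = 0) :
    hy b L j (insert i0 Z) Q = 0 := by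
  classical
  by_cases hi0 : i0 ∈ Z
  · rw [Finset.insert_eq_of_mem hi0]
    exact hy_mono b L (Nat.le_add_right _ _) Z h
  obtain ⟨q, hq, hQq⟩ := mem_InV.1 hQ
  let B := BR F n
  set P : Polynomial B := ∑ β ∈ (Finset.univ : Finset (Fin ρ)),
    Polynomial.C (hy b L j Z (q β)) * (φ β).map (algebraMap F B) with hP
  have hg : (pderiv (Sum.inr (Sum.inl 0)) : Derivation F B B) (G b L j i0) ≠ 0 := by
    rw [pderiv_y_G_lt b L j i0 (show 0 < j by omega)]
    exact aeval_zv_ne_zero _ (hL.ne_zero i0)
  -- the derivatives vanish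
  have hder : ∀ m < ρ, (Polynomial.derivative^[m] P).eval (G b L j i0) = 0 := by
    intro m hm
    have h1 : hy b L j Z ((pderiv i0)^[m] Q) = 0 := by
      apply hy_iter_grad b L hL Z i0 hi0 m j Q
      exact hy_mono b L (by omega) Z h
    rw [hQq, iter_pderiv_comb q hq, map_sum] at h1
    rw [hP, Polynomial.iterate_derivative_sum, Polynomial.eval_finsetSum, ← h1]
    apply Finset.sum_congr rfl
    intro β _
    rw [Polynomial.iterate_derivative_C_mul, Polynomial.eval_mul, Polynomial.eval_C, map_mul,
      iterate_derivative_map, ← Polynomial.aeval_algHom_apply, hy_X_not_mem b L j hi0,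
      Polynomial.eval_map_algebraMap]
  have hdvd : (Polynomial.X - Polynomial.C (G b L j i0)) ^ ρ ∣ P := by
    by_cases hP0 : P = 0
    · rw [hP0]; exact dvd_zero _
    rcases Nat.eq_zero_or_pos ρ with hρ | hρ
    · rw [hρ, pow_zero]; exact one_dvd _
    have h1 := (Polynomial.lt_rootMultiplicity_iff_isRoot_iterate_derivative
      (t := G b L j i0) (n := ρ - 1) hP0).2 (fun m hm => hder m (by omega))
    exact (Polynomial.le_rootMultiplicity_iff hP0).1 (by omega)
  have hcz : CharZero B := inferInstance
  have hP0 : P = 0 := wron (pderiv (Sum.inr (Sum.inl 0)) : Derivation F B B) hg φ ρ Finset.univ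
    (fun β => hy b L j Z (q β)) (by simp) hdvd
  have hfin : hy b L j (insert i0 Z) Q = P.eval (X (Sum.inl i0)) := by
    rw [hQq, map_sum, hP, Polynomial.eval_finsetSum]
    apply Finset.sum_congr rfl
    intro β _
    rw [map_mul, hy_insert_of_supported b L j (hq β), Polynomial.eval_mul, Polynomial.eval_C,
      ← Polynomial.aeval_algHom_apply, hy_X_mem b L j (Finset.mem_insert_self _ _),
      Polynomial.eval_map_algebraMap]
  rw [hfin, hP0, Polynomial.eval_zero]

/-- A first order linear differential relation frees a variable at no cost, if its leading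
coefficient does not vanish. -/
theorem hy_lossless [CharZero F] (j : ℕ) {Z : Finset (Fin n)} {i0 : Fin n} (hi0 : i0 ∉ Z)
    {Q μ : MvPolynomial (Fin n) F} {ρ : Type*} [Fintype ρ] (κ : ρ → Fin n) (hκ : ∀ p, κ p ∈ Z)
    (m : ρ → MvPolynomial (Fin n) F)
    (hpde : μ * pderiv i0 Q = ∑ p, m p * pderiv (κ p) Q)
    (hQ : hy b L j Z Q = 0) (hμ : hy b L j Z μ ≠ 0) : hy b L j (insert i0 Z) Q = 0 := by
  classical
  let B := BR F n
  let g : B := G b L j i0
  let ε : B →ₐ[F] B := aeval (fun k => if k = Sum.inl i0 then g else X k)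
  set π : B := X (Sum.inl i0) - g with hπ
  set Ψ : B := hy b L j (insert i0 Z) Q with hΨ
  have hεX0 : ε (X (Sum.inl i0)) = g := by
    have : ε (X (Sum.inl i0)) = if (Sum.inl i0 : Fin n ⊕ (ℕ ⊕ ℕ)) = Sum.inl i0 then g
      else X (Sum.inl i0) := aeval_X _ _
    rw [this, if_pos rfl]
  have hεX : ∀ k, k ≠ Sum.inl i0 → ε (X k) = X k := by
    intro k hk
    have : ε (X k) = if k = Sum.inl i0 then g else X k := aeval_X _ k
    rw [this, if_neg hk]
  clear_value ε
  have hεG : ∀ i, ε (G b L j i) = G b L j i := by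
    intro i
    unfold G
    rw [map_add, map_sum]
    congr 1
    · exact ε.commutes (b i)
    · apply Finset.sum_congr rfl
      intro t _
      rw [map_mul, hεX _ (by simp), ← Polynomial.aeval_algHom_apply, hεX _ (by simp)]
  have hεg : ε g = g := hεG i0
  have claim1 : ∀ P : B, π ∣ P - ε P := by
    intro P
    induction P using MvPolynomial.induction_on with
    | C r =>
      have : ε (C r) = C r := ε.commutes r
      rw [this, sub_self]; exact dvd_zero _
    | add p q hp hq =>
      rw [map_add, add_sub_add_comm]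
      exact dvd_add hp hq
    | mul_X p i hp =>
      rw [map_mul]
      by_cases hi : i = Sum.inl i0
      · subst hi
        rw [hεX0]
        have : p * X (Sum.inl i0) - ε p * g = (p - ε p) * X (Sum.inl i0) + ε p * π := by
          rw [hπ]; ring
        rw [this]
        exact dvd_add (Dvd.dvd.mul_right hp _) (Dvd.intro_left _ rfl)
      · rw [hεX i hi, ← sub_mul]
        exact Dvd.dvd.mul_right hp _
  have claim1' : ∀ P : B, ε P = 0 → π ∣ P := by
    intro P hP
    have := claim1 P
    rwa [hP, sub_zero] at this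
  have hεπ : ε π = 0 := by rw [hπ, map_sub, hεX0, hεg, sub_self]
  have claim2 : ∀ P : MvPolynomial (Fin n) F, ε (hy b L j (insert i0 Z) P) = hy b L j Z P := by
    intro P
    have h : ε.comp (hy b L j (insert i0 Z)) = hy b L j Z := by
      apply MvPolynomial.algHom_ext
      intro i
      rw [AlgHom.comp_apply]
      by_cases hi : i = i0
      · subst hi
        rw [hy_X_mem b L _ (Finset.mem_insert_self _ _), hεX0, hy_X_not_mem b L _ hi0]
      · by_cases hiZ : i ∈ Z
        · rw [hy_X_mem b L _ (Finset.mem_insert_of_mem hiZ), hεX _ (by simpa using hi),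
            hy_X_mem b L _ hiZ]
        · have hni : i ∉ insert i0 Z := by simp [hi, hiZ]
          rw [hy_X_not_mem b L _ hni, hεG, hy_X_not_mem b L _ hiZ]
    rw [← h, AlgHom.comp_apply]
  have hpde' : hy b L j (insert i0 Z) μ * pderiv (Sum.inl i0) Ψ =
      ∑ p, hy b L j (insert i0 Z) (m p) * pderiv (Sum.inl (κ p)) Ψ := by
    have h1 := congrArg (hy b L j (insert i0 Z)) hpde
    rw [map_mul, map_sum] at h1
    rw [hΨ, pderiv_hy b L j (Finset.mem_insert_self _ _), h1]
    apply Finset.sum_congr rfl
    intro p _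
    rw [map_mul, pderiv_hy b L j (Finset.mem_insert_of_mem (hκ p))]
  have hdπ0 : pderiv (Sum.inl i0) π = 1 := by
    rw [hπ, map_sub, pderiv_X_self, pderiv_inl_G, sub_zero]
  have hπ0 : π ≠ 0 := by
    intro h0
    rw [h0, map_zero] at hdπ0
    exact zero_ne_one hdπ0
  have hdπ : ∀ p, pderiv (Sum.inl (κ p)) π = 0 := by
    intro p
    have hne : i0 ≠ κ p := by
      rintro rfl
      exact hi0 (hκ p)
    rw [hπ, map_sub, pderiv_X_of_ne (by simpa using hne), pderiv_inl_G, sub_zero]
  have claim3 : ∀ N : ℕ, π ^ (N + 1) ∣ Ψ := by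
    intro N
    induction N with
    | zero =>
      rw [zero_add, pow_one]
      apply claim1'
      rw [hΨ, claim2, hQ]
    | succ N ih =>
      obtain ⟨Y, hY⟩ := ih
      have h1 : pderiv (Sum.inl i0) Ψ =
          π ^ N * ((N + 1 : ℕ) * Y + π * pderiv (Sum.inl i0) Y) := by
        rw [hY, pderiv_mul, pderiv_pow, hdπ0, Nat.add_sub_cancel]
        ring
      have h2 : ∀ p, pderiv (Sum.inl (κ p)) Ψ = π ^ N * (π * pderiv (Sum.inl (κ p)) Y) := by
        intro p
        rw [hY, pderiv_mul, pderiv_pow, hdπ, Nat.add_sub_cancel]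
        ring
      have h3 : π ^ N * (hy b L j (insert i0 Z) μ *
          ((N + 1 : ℕ) * Y + π * pderiv (Sum.inl i0) Y)) =
          π ^ N * (π * ∑ p, hy b L j (insert i0 Z) (m p) * pderiv (Sum.inl (κ p)) Y) := by
        rw [h1] at hpde'
        simp only [h2] at hpde'
        rw [Finset.mul_sum, Finset.mul_sum]
        calc π ^ N * (hy b L j (insert i0 Z) μ * ((N + 1 : ℕ) * Y + π * pderiv (Sum.inl i0) Y))
            = hy b L j (insert i0 Z) μ *
                (π ^ N * ((N + 1 : ℕ) * Y + π * pderiv (Sum.inl i0) Y)) := by ring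
          _ = _ := hpde'
          _ = _ := by
            apply Finset.sum_congr rfl
            intro p _
            ring
      have h4 := mul_left_cancel₀ (pow_ne_zero N hπ0) h3
      have h5 := congrArg ε h4
      rw [map_mul, claim2, map_add, map_mul, map_mul, hεπ, zero_mul, add_zero, map_mul, hεπ,
        zero_mul] at h5
      have h6 : ε Y = 0 := by
        rcases mul_eq_zero.1 h5 with h | h
        · exact absurd h hμ
        · rcases mul_eq_zero.1 h with h | h
          · exfalso
            rw [map_natCast] at h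
            exact Nat.succ_ne_zero N (by exact_mod_cast h)
          · exact h
      obtain ⟨W, hW⟩ := claim1' Y h6
      exact ⟨W, by rw [hY, hW]; ring⟩
  by_contra hne
  have hunit : ¬ IsUnit π := by
    intro hu
    rw [MvPolynomial.isUnit_iff_eq_C_of_isReduced] at hu
    obtain ⟨r, _, hr⟩ := hu
    rw [hr, pderiv_C] at hdπ0
    exact zero_ne_one hdπ0
  have hfin : FiniteMultiplicity π Ψ := FiniteMultiplicity.of_not_isUnit hunit hne
  obtain ⟨N, hN⟩ := hfin
  exact hN (claim3 N)

end

end Pool.Agent.H626R2.Orb
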