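import Mathlib
import Pool.Agent.H626R2.Orb.OFree
import Pool.Agent.H530R2.Lin

/-!
The functions of one variable occurring in the entries of matrix products, their derivatives and
minors.
-/

namespace Pool.Agent.H626R2.Orb

open MvPolynomial Pool.Agent.H530R2

section

variable {F : Type*} [Field F] {n : ℕ} {w : ℕ}

/-- entries of one layer -/
noncomputable def ey (N : ℕ → Matrix (Fin w) (Fin w) (Polynomial F)) (p : ℕ) :
    Fin w × Fin w → Polynomial F := fun q => N p q.1 q.2

theorem smul_mem_InV {i : Fin n} {β : Type*} {φ : β → Polynomial F} {a x : MvPolynomial (Fin n) F}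
    (ha : a ∈ supported F {k : Fin n | k ≠ i}) (hx : x ∈ InV i φ) : a * x ∈ InV i φ :=
  Submodule.smul_mem (InV i φ) (⟨a, ha⟩ : supported F {k : Fin n | k ≠ i}) hx

theorem fun_mem_InV {i : Fin n} {β : Type*} {φ : β → Polynomial F} {v : Polynomial F}
    (hv : v ∈ Submodule.span F (Set.range φ)) :
    Polynomial.aeval (X i : MvPolynomial (Fin n) F) v ∈ InV i φ := by
  induction hv using Submodule.span_induction with
  | mem x hx =>
    obtain ⟨β0, rfl⟩ := hx
    exact Submodule.subset_span ⟨β0, rfl⟩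
  | zero => rw [map_zero]; exact Submodule.zero_mem _
  | add x y _ _ hx hy => rw [map_add]; exact Submodule.add_mem _ hx hy
  | smul c x _ hx =>
    rw [map_smul, MvPolynomial.smul_eq_C_mul]
    exact smul_mem_InV (Subalgebra.algebraMap_mem _ c) hx

theorem en_mem_EV (σ : Equiv.Perm (Fin n)) (N : ℕ → Matrix (Fin w) (Fin w) (Polynomial F))
    (s m p : ℕ) (hsp : s ≤ p) (hpm : p < s + m) (hp : p < n) (q : Fin w × Fin w) :
    en σ N s m q ∈ InV (σ ⟨p, hp⟩) (ey N p) := by
  obtain ⟨a, rfl⟩ := Nat.exists_eq_add_of_le hsp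
  obtain ⟨c, hc⟩ := Nat.exists_eq_add_of_lt hpm
  have hm : m = a + (c + 1) := by omega
  subst hm
  have hL : ∀ r, en (F := F) σ N s a r ∈ supported F {k : Fin n | k ≠ σ ⟨s + a, hp⟩} := by
    intro r
    refine Algebra.adjoin_mono ?_ (en_mem σ N s a r)
    apply Set.image_mono
    rintro k hk rfl
    simp only [Set.mem_ofPred_eq, Equiv.symm_apply_apply] at hk
    omega
  have hR : ∀ r, en (F := F) σ N (s + a + 1) c r ∈
      supported F {k : Fin n | k ≠ σ ⟨s + a, hp⟩} := by
    intro r
    refine Algebra.adjoin_mono ?_ (en_mem σ N (s + a + 1) c r)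
    apply Set.image_mono
    rintro k hk rfl
    simp only [Set.mem_ofPred_eq, Equiv.symm_apply_apply] at hk
    omega
  have hpv : (pv σ (s + a) : MvPolynomial (Fin n) F) = X (σ ⟨s + a, hp⟩) := by
    unfold pv
    rw [dif_pos hp]
  have h1 : en (F := F) σ N s (a + (c + 1)) q = ∑ l, en σ N s a (q.1, l) *
      ∑ l', Polynomial.aeval (X (σ ⟨s + a, hp⟩) : MvPolynomial (Fin n) F) (N (s + a) l l') *
        en σ N (s + a + 1) c (l', q.2) := by
    unfold en
    rw [Pr_add, Matrix.mul_apply]
    apply Finset.sum_congr rfl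
    intro l _
    rw [Pr_succ', Matrix.mul_apply]
    congr 1
    apply Finset.sum_congr rfl
    intro l' _
    unfold Nh
    rw [Matrix.map_apply, hpv]
  rw [h1]
  refine Submodule.sum_mem _ fun l _ => smul_mem_InV (hL _) (Submodule.sum_mem _ fun l' _ => ?_)
  rw [mul_comm]
  exact smul_mem_InV (hR _) (Submodule.subset_span ⟨(l, l'), rfl⟩)

theorem pderiv_mem_InV {i κ : Fin n} (hκ : κ ≠ i) {β : Type*} {φ : β → Polynomial F}
    {x : MvPolynomial (Fin n) F} (hx : x ∈ InV i φ) : pderiv κ x ∈ InV i φ := by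
  unfold InV at hx
  induction hx using Submodule.span_induction with
  | mem x hx =>
    obtain ⟨β0, rfl⟩ := hx
    have h := (pderiv (R := F) κ : Derivation F (MvPolynomial (Fin n) F) _).map_aeval (φ β0)
      (X i : MvPolynomial (Fin n) F)
    have h2 : pderiv κ (Polynomial.aeval (X i : MvPolynomial (Fin n) F) (φ β0)) = 0 := by
      rw [h, pderiv_X_of_ne hκ.symm, smul_zero]
    show pderiv κ (Polynomial.aeval (X i : MvPolynomial (Fin n) F) (φ β0)) ∈ InV i φ
    rw [h2]
    exact Submodule.zero_mem _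
  | zero => rw [map_zero]; exact Submodule.zero_mem _
  | add x y _ _ hx hy => rw [map_add]; exact Submodule.add_mem _ hx hy
  | smul c x hx0 hx =>
    have h1 : c • x = (c : MvPolynomial (Fin n) F) * x := rfl
    rw [h1, pderiv_mul]
    exact Submodule.add_mem _ (smul_mem_InV (pderiv_mem_supported _ c.2) hx0)
      (smul_mem_InV c.2 hx)

theorem prod_mem_pow' {R A : Type*} [CommSemiring R] [CommSemiring A] [Algebra R A]
    (E : Submodule R A) (k : ℕ) : ∀ f : Fin k → A, (∀ i, f i ∈ E) → ∏ i, f i ∈ E ^ k := by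
  induction k with
  | zero =>
    intro f _
    rw [Fin.prod_univ_zero, pow_zero]
    exact Submodule.one_le.1 le_rfl
  | succ k ih =>
    intro f hf
    rw [Fin.prod_univ_succ, pow_succ']
    exact Submodule.mul_mem_mul (hf 0) (ih _ fun i => hf i.succ)

theorem pow_EV_le {i : Fin n} {ρ : ℕ} {φ : Fin ρ → Polynomial F} {ψ : Fin w × Fin w → Polynomial F}
    {k : ℕ} (hφ : ∀ g : Fin k → Fin w × Fin w, ∏ l, ψ (g l) ∈ Submodule.span F (Set.range φ)) :
    (InV i ψ) ^ k ≤ InV i φ := by
  rw [InV, Submodule.span_pow, Submodule.span_le]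
  intro x hx
  obtain ⟨f, hf⟩ := Set.mem_pow.1 hx
  choose g hg using fun l => (f l).2
  rw [List.prod_ofFn] at hf
  rw [← hf]
  have h1 : ∏ l, (f l : MvPolynomial (Fin n) F) =
      Polynomial.aeval (X i : MvPolynomial (Fin n) F) (∏ l, ψ (g l)) := by
    rw [map_prod]
    apply Finset.prod_congr rfl
    intro l _
    exact (hg l).symm
  rw [h1]
  exact fun_mem_InV (hφ g)

/-- minors of matrices whose entries involve the layer functions linearly -/
theorem det_mem_InV {i : Fin n} {ρ : ℕ} {φ : Fin ρ → Polynomial F}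
    {ψ : Fin w × Fin w → Polynomial F} {k : ℕ}
    (hφ : ∀ g : Fin k → Fin w × Fin w, ∏ l, ψ (g l) ∈ Submodule.span F (Set.range φ))
    {M : Matrix (Fin k) (Fin k) (MvPolynomial (Fin n) F)} (hM : ∀ a b, M a b ∈ InV i ψ) :
    M.det ∈ InV i φ := by
  rw [Matrix.det_apply']
  refine Submodule.sum_mem _ fun τ _ => smul_mem_InV (Subalgebra.intCast_mem _ _) ?_
  exact pow_EV_le hφ (prod_mem_pow' _ k _ fun l => hM _ _)

end

end Pool.Agent.H626R2.Orb
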