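import Mathlib
import Pool.Agent.H626R2.Orb.OV

/-!
The decoupling theorem for products of matrices in linearly independent affine forms
(the recursion follows `Pool.Agent.H530R2.lin_dec`).
-/

namespace Pool.Agent.H626R2.Orb

open Module Pool.Agent.H530R2

section

variable {F : Type*} [Field F] {n : ℕ} {w : ℕ}

/-- The decoupling theorem for products of matrices in affine forms. -/
theorem olin [CharZero F] (b0 : Fin n → F) (L : Fin n → Polynomial F)
    (hL : LinearIndependent F L)
    (σ : Equiv.Perm (Fin n)) (N : ℕ → Matrix (Fin w) (Fin w) (Polynomial F))
    {ρ : ℕ} (φ : ℕ → Fin ρ → Polynomial F)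
    (hφ : ∀ p < n, ∀ k ≤ w * w, ∀ g : Fin k → Fin w × Fin w,
      ∏ l, ey N p (g l) ∈ Submodule.span F (Set.range (φ p))) (s : ℕ)
    (hs : s ≤ w) :
    ∀ a' b : ℕ, a' ≤ b → b ≤ n →
      (a' = b ∨ w + 1 ≤ rk (pv σ : ℕ → MvPolynomial (Fin n) F) N a' (b - a') + s) →
      ∀ Q : MvPolynomial (Fin n) F,
      Ctrl ((Zs σ b \ Zs σ a' : Finset (Fin n)) : Set (Fin n)) (en σ N a' (b - a')) Q →
      (∀ p (hp : p < n), a' ≤ p → p < b → Q ∈ InV (σ ⟨p, hp⟩) (φ p)) →
      ∀ j, 1 ≤ j → hy b0 L (j + ρ * lcost w s) (Zs σ a') Q = 0 →
        hy b0 L j (Zs σ b) Q = 0 := by
  classical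
  induction s with
  | zero =>
    intro a' b hab hbn hor Q hQ hI j hj h0
    rcases hor with rfl | h
    · exact hy_mono b0 L (Nat.le_add_right _ _) _ h0
    · exfalso
      have h2 : rk (pv σ : ℕ → MvPolynomial (Fin n) F) N a' (b - a') ≤ w := by
        rw [rk_eq]
        refine (Matrix.rank_le_card_width _).trans ?_
        rw [Fintype.card_fin]
      omega
  | succ s ih =>
    have ih' := ih (by omega)
    clear ih
    intro a' b hab hbn hor Q hQ hI j hj h0
    by_cases hA : a' = b ∨ w + 1 ≤ rk (pv σ : ℕ → MvPolynomial (Fin n) F) N a' (b - a') + s
    · exact ih' a' b hab hbn hA Q hQ hI j hj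
        (hy_mono b0 L (Nat.add_le_add_left (Nat.mul_le_mul_left ρ (lcost_le_succ w s)) j) _ h0)
    push Not at hA
    obtain ⟨hne, hlt⟩ := hA
    have hr : rk (pv σ : ℕ → MvPolynomial (Fin n) F) N a' (b - a') + s = w := by
      rcases hor with h | h
      · exact absurd h hne
      · omega
    have claim : ∀ d t : ℕ, t + d = b → a' ≤ t → ∀ j, 1 ≤ j →
        hy b0 L (j + ρ * ((lcost w s + 2) + (w * (w - s) - er (Zs σ t \ Zs σ a')
          (en (F := F) σ N a' (b - a'))))) (Zs σ t) Q = 0 → hy b0 L j (Zs σ b) Q = 0 := by
      intro d
      induction d with
      | zero =>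
        intro t htb hat j hj h
        have : t = b := by omega
        subst this
        exact hy_mono b0 L (Nat.le_add_right _ _) _ h
      | succ d ihd =>
        intro t htb hat j hj h
        have htn : t < n := by omega
        set i0 := σ ⟨t, htn⟩ with hi0
        have hZ : Zs σ (t + 1) = insert i0 (Zs σ t) := Zs_succ σ htn
        have hi0Z : i0 ∉ Zs σ t := not_mem_Zs σ htn le_rfl
        have hi0Za : i0 ∉ Zs σ a' := not_mem_Zs σ htn hat
        have hi0b : i0 ∈ Zs σ b := by
          rw [mem_Zs, hi0]; simp; omega
        have hsplit : b - a' = (t + 1 - a') + (b - (t + 1)) := by omega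
        have hat1 : a' + (t + 1 - a') = t + 1 := by omega
        by_cases hA' : t + 1 = b ∨
            w + 1 ≤ rk (pv σ : ℕ → MvPolynomial (Fin n) F) N (t + 1) (b - (t + 1)) + s
        · have h1 : hy b0 L (j + ρ * lcost w s) (Zs σ (t + 1)) Q = 0 := by
            rw [hZ]
            apply hy_free b0 L hL (by omega) (Zs σ t) i0 (hI t htn hat (by omega))
            rw [add_assoc, ← Nat.mul_succ]
            exact hy_mono b0 L (Nat.add_le_add_left (Nat.mul_le_mul_left ρ (by omega)) j) _ h
          refine ih' (t + 1) b (by omega) hbn hA' Q ?_ (fun p hp h1 h2 => hI p hp (by omega) h2)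
            j hj h1
          refine Ctrl.trans (J' := en σ N a' (b - a')) ?_ (hQ.mono ?_)
          · intro q
            rw [hsplit]
            have := ctrl_of_adjoin (en_split_right (F := F) σ N a' (t + 1 - a')
              (b - (t + 1)) q)
            rw [hat1] at this
            refine this.mono ?_
            intro k hk
            rw [Finset.mem_coe, Finset.mem_sdiff] at hk
            simpa using hk.2
          · intro k hk
            rw [Finset.mem_coe, Finset.mem_sdiff] at hk ⊢
            exact ⟨hk.1, fun hc => hk.2 (Zs_mono (by omega) hc)⟩
        push Not at hA'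
        obtain ⟨htb1, hlt1⟩ := hA'
        have hge1 : rk (pv σ : ℕ → MvPolynomial (Fin n) F) N a' (b - a') ≤
            rk (pv σ : ℕ → MvPolynomial (Fin n) F) N (t + 1) (b - (t + 1)) := by
          have := rk_le_right (pv σ : ℕ → MvPolynomial (Fin n) F) N a' (t + 1 - a')
            (b - (t + 1))
          rwa [← hsplit, hat1] at this
        have her1 : rk (pv σ : ℕ → MvPolynomial (Fin n) F) N (t + 1) (b - (t + 1)) + s = w := by
          omega
        have hrw : rk (pv σ : ℕ → MvPolynomial (Fin n) F) N (t + 1) (b - (t + 1)) = w - s := by
          omega
        by_cases hB : dv (en (F := F) σ N a' (b - a')) i0 ∈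
            sp (Zs σ t \ Zs σ a') (en (F := F) σ N a' (b - a'))
        swap
        · -- a jump
          have hlt2 : er (Zs σ t \ Zs σ a') (en (F := F) σ N a' (b - a')) <
              er (Zs σ (t + 1) \ Zs σ a') (en (F := F) σ N a' (b - a')) := by
            unfold er
            apply Submodule.finrank_lt_finrank_of_lt
            rw [SetLike.lt_iff_le_and_exists]
            refine ⟨?_, dv (en (F := F) σ N a' (b - a')) i0, ?_, hB⟩
            · unfold sp
              apply Submodule.span_mono
              apply Set.image_mono
              intro k hk
              rw [Finset.mem_coe, Finset.mem_sdiff] at hk ⊢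
              exact ⟨Zs_mono (by omega) hk.1, hk.2⟩
            · apply Submodule.subset_span
              refine ⟨i0, ?_, rfl⟩
              rw [Finset.mem_coe, Finset.mem_sdiff, hZ]
              exact ⟨Finset.mem_insert_self _ _, hi0Za⟩
          have hle2 : er (Zs σ (t + 1) \ Zs σ a') (en (F := F) σ N a' (b - a')) ≤
              w * (w - s) := by
            rw [← hrw, hsplit]
            have := er_en_le (F := F) σ N a' (t + 1 - a') (b - (t + 1))
              (S := Zs σ (t + 1) \ Zs σ a') (by rw [hat1]; exact Finset.sdiff_subset)
            rwa [hat1] at this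
          refine ihd (t + 1) (by omega) (by omega) j hj ?_
          rw [hZ]
          rw [hZ] at hlt2 hle2
          apply hy_free b0 L hL (by omega) (Zs σ t) i0 (hI t htn hat (by omega))
          rw [add_assoc, ← Nat.mul_succ]
          exact hy_mono b0 L (Nat.add_le_add_left (Nat.mul_le_mul_left ρ (by omega)) j) _ h
        · -- a lossless step
          have hspeq : sp (Zs σ (t + 1) \ Zs σ a') (en (F := F) σ N a' (b - a')) =
              sp (Zs σ t \ Zs σ a') (en (F := F) σ N a' (b - a')) := by
            apply le_antisymm
            · apply Submodule.span_le.2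
              rintro _ ⟨k, hk, rfl⟩
              rw [Finset.mem_coe, Finset.mem_sdiff, hZ, Finset.mem_insert] at hk
              obtain ⟨hk1 | hk1, hk2⟩ := hk
              · rw [hk1]; exact hB
              · exact Submodule.subset_span ⟨k, by
                  rw [Finset.mem_coe, Finset.mem_sdiff]; exact ⟨hk1, hk2⟩, rfl⟩
            · unfold sp
              apply Submodule.span_mono
              apply Set.image_mono
              intro k hk
              rw [Finset.mem_coe, Finset.mem_sdiff] at hk ⊢
              exact ⟨Zs_mono (by omega) hk.1, hk.2⟩
          have herε : er (Zs σ (t + 1) \ Zs σ a') (en (F := F) σ N a' (b - a')) =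
              er (Zs σ t \ Zs σ a') (en (F := F) σ N a' (b - a')) := by
            unfold er
            rw [hspeq]
          -- minimal time with the same rank
          have hex : ∃ c, t + 1 < c ∧
              rk (pv σ : ℕ → MvPolynomial (Fin n) F) N (t + 1) (c - (t + 1)) + s ≤ w :=
            ⟨b, by omega, by omega⟩
          set b' := Nat.find hex with hb'
          have hb'1 : t + 1 < b' := (Nat.find_spec hex).1
          have hb'2 : rk (pv σ : ℕ → MvPolynomial (Fin n) F) N (t + 1) (b' - (t + 1)) + s ≤ w :=
            (Nat.find_spec hex).2
          have hb'b : b' ≤ b := Nat.find_min' hex ⟨by omega, by omega⟩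
          have hb'3 : t + 1 = b' - 1 ∨
              w + 1 ≤ rk (pv σ : ℕ → MvPolynomial (Fin n) F) N (t + 1) (b' - 1 - (t + 1)) + s := by
            by_cases h1 : t + 1 = b' - 1
            · exact Or.inl h1
            · right
              have h2 := Nat.find_min hex (m := b' - 1) (by omega)
              push Not at h2
              have := h2 (by omega)
              omega
          have hsplit2 : b - (t + 1) = (b' - (t + 1)) + (b - b') := by omega
          have htb' : t + 1 + (b' - (t + 1)) = b' := by omega
          have her2 : rk (pv σ : ℕ → MvPolynomial (Fin n) F) N (t + 1) (b' - (t + 1)) =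
              rk (pv σ : ℕ → MvPolynomial (Fin n) F) N (t + 1) (b - (t + 1)) := by
            have := rk_le_left (pv σ : ℕ → MvPolynomial (Fin n) F) N (t + 1) (b' - (t + 1))
              (b - b')
            rw [← hsplit2] at this
            omega
          have hsplit3 : b' - a' = (t + 1 - a') + (b' - (t + 1)) := by omega
          have hsplit4 : b - a' = (b' - a') + (b - b') := by omega
          have hab' : a' + (b' - a') = b' := by omega
          -- transfer of the dependence
          have hB' : dv (en (F := F) σ N a' (b' - a')) i0 ∈
              sp (Zs σ t \ Zs σ a') (en (F := F) σ N a' (b' - a')) := by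
            obtain ⟨G, hG⟩ := exists_right_factor
              (PrK (pv σ : ℕ → MvPolynomial (Fin n) F) N (t + 1) (b' - (t + 1)))
              (PrK (pv σ : ℕ → MvPolynomial (Fin n) F) N b' (b - b')) (by
                have h1 := PrK_add (pv σ : ℕ → MvPolynomial (Fin n) F) N (t + 1)
                  (b' - (t + 1)) (b - b')
                rw [← hsplit2, htb'] at h1
                rw [← h1, ← rk_eq, ← rk_eq, her2])
            have hmap : ∀ k ∈ Zs σ (t + 1), mulR G (dv (en (F := F) σ N a' (b - a')) k) =
                dv (en (F := F) σ N a' (b' - a')) k := by
              intro k hk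
              have hk' : k ∈ Zs σ (a' + (t + 1 - a')) := by rwa [hat1]
              have h1 := dv_en_split (F := F) σ N a' (t + 1 - a') (b - (t + 1)) hk'
              have h2 := dv_en_split (F := F) σ N a' (t + 1 - a') (b' - (t + 1)) hk'
              rw [← hsplit, hat1] at h1
              rw [← hsplit3, hat1] at h2
              rw [h1, h2]
              have h3 : PrK (pv σ : ℕ → MvPolynomial (Fin n) F) N (t + 1) (b - (t + 1)) * G =
                  PrK (pv σ : ℕ → MvPolynomial (Fin n) F) N (t + 1) (b' - (t + 1)) := by
                have h4 := PrK_add (pv σ : ℕ → MvPolynomial (Fin n) F) N (t + 1)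
                  (b' - (t + 1)) (b - b')
                rw [← hsplit2, htb'] at h4
                rw [h4]
                exact hG
              funext q
              have h5 : ∀ l, (PrK (pv σ : ℕ → MvPolynomial (Fin n) F) N (t + 1) (b' - (t + 1)))
                  l q.2 = ∑ l', (PrK (pv σ : ℕ → MvPolynomial (Fin n) F) N (t + 1)
                    (b - (t + 1))) l l' * G l' q.2 := by
                intro l
                rw [← h3, Matrix.mul_apply]
              simp only [mulR, LinearMap.coe_mk, AddHom.coe_mk]
              have h6 : ∀ l, ((Pr (pv σ : ℕ → MvPolynomial (Fin n) F) N (t + 1)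
                  (b' - (t + 1))).map (algebraMap (MvPolynomial (Fin n) F)
                    (FractionRing (MvPolynomial (Fin n) F)))) l q.2 =
                  ∑ l', ((Pr (pv σ : ℕ → MvPolynomial (Fin n) F) N (t + 1)
                  (b - (t + 1))).map (algebraMap (MvPolynomial (Fin n) F)
                    (FractionRing (MvPolynomial (Fin n) F)))) l l' * G l' q.2 := h5
              simp only [h6, Finset.sum_mul, Finset.mul_sum]
              rw [Finset.sum_comm]
              apply Finset.sum_congr rfl
              intro l _
              apply Finset.sum_congr rfl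
              intro l' _
              ring
            rw [← hmap i0 (by rw [hZ]; exact Finset.mem_insert_self _ _)]
            have h7 : sp (Zs σ t \ Zs σ a') (en (F := F) σ N a' (b' - a')) =
                (sp (Zs σ t \ Zs σ a') (en (F := F) σ N a' (b - a'))).map (mulR G) := by
              unfold sp
              rw [Submodule.map_span, ← Set.image_comp]
              congr 1
              apply Set.image_congr
              intro k hk
              rw [Finset.mem_coe, Finset.mem_sdiff] at hk
              exact (hmap k (Zs_mono (by omega) hk.1)).symm
            rw [h7]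
            exact Submodule.mem_map_of_mem hB
          obtain ⟨ρ', κ, g, m, hρ', hκ, hμ0, hrel⟩ := cramer_rel hB'
          set μ := (Matrix.of fun q l => MvPolynomial.pderiv (κ q)
            (en (F := F) σ N a' (b' - a') (g l))).det with hμ
          -- the minor does not vanish
          have hμI : ∀ p (hp : p < n), t ≤ p → p < b' → μ ∈ InV (σ ⟨p, hp⟩) (φ p) := by
            intro p hp htp hpb
            refine det_mem_InV (ψ := ey N p) (hφ p hp _ ?_) ?_
            · simpa using hρ'
            · intro q l
              rw [Matrix.of_apply]
              refine pderiv_mem_InV ?_ (en_mem_EV σ N a' (b' - a') p (by omega) (by omega) hp _)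
              have hκq := (Finset.mem_sdiff.1 (hκ q)).1
              intro heq
              rw [heq, mem_Zs] at hκq
              simp at hκq
              omega
          have hnon : hy b0 L (j + ρ * ((lcost w s + 2) + (w * (w - s) - er (Zs σ t \ Zs σ a')
              (en (F := F) σ N a' (b - a'))))) (Zs σ t) μ ≠ 0 := by
            intro hmem
            apply hμ0
            have h1 : hy b0 L (1 + ρ + ρ * lcost w s + ρ) (Zs σ t) μ = 0 := by
              refine hy_mono b0 L ?_ _ hmem
              have h1a : ρ * (lcost w s + 2) ≤ ρ * ((lcost w s + 2) + (w * (w - s) -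
                er (Zs σ t \ Zs σ a') (en (F := F) σ N a' (b - a')))) :=
                Nat.mul_le_mul_left ρ (by omega)
              have h1b : ρ * (lcost w s + 2) = ρ * lcost w s + ρ + ρ := by ring
              omega
            have h2 : hy b0 L (1 + ρ + ρ * lcost w s) (Zs σ (t + 1)) μ = 0 := by
              rw [hZ]
              exact hy_free b0 L hL (by omega) (Zs σ t) i0 (hμI t htn le_rfl (by omega)) h1
            have hb'n : b' - 1 < n := by omega
            -- the entries of the minor
            have hent : ∀ q l, MvPolynomial.pderiv (κ q) (en (F := F) σ N a' (b' - a') (g l)) ∈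
                Algebra.adjoin F (Set.range (en (F := F) σ N (t + 1) (b' - 1 - (t + 1))) ∪
                  MvPolynomial.X '' {k : Fin n | k ∈ Zs σ (t + 1) ∨ k ∉ Zs σ (b' - 1)}) := by
              intro q l
              have hκq := (Finset.mem_sdiff.1 (hκ q)).1
              have hκ' : κ q ∈ Zs σ (a' + (t + 1 - a')) := by
                rw [hat1]; exact Zs_mono (by omega) hκq
              rw [hsplit3, pderiv_en_split (F := F) σ N a' (t + 1 - a') (b' - (t + 1)) _ hκ']
              refine Subalgebra.sum_mem _ fun l' _ => Subalgebra.mul_mem _ ?_ ?_
              · have h3 : MvPolynomial.pderiv (κ q) (en (F := F) σ N a' (t + 1 - a')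
                    ((g l).1, l')) ∈ MvPolynomial.supported F (Zs σ (t + 1) : Set (Fin n)) := by
                  apply pderiv_mem_supported
                  have := en_supp (F := F) σ N a' (t + 1 - a') ((g l).1, l')
                  rwa [hat1] at this
                refine Algebra.adjoin_mono ?_ h3
                refine (Set.image_mono ?_).trans Set.subset_union_right
                intro k hk
                exact Or.inl (by exact_mod_cast hk)
              · rw [hat1]
                have h4 : b' - (t + 1) = (b' - 1 - (t + 1)) + 1 := by omega
                rw [h4]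
                refine Algebra.adjoin_mono ?_ (en_split_left (F := F) σ N (t + 1)
                  (b' - 1 - (t + 1)) 1 (l', (g l).2))
                apply Set.union_subset_union_right
                apply Set.image_mono
                intro k hk
                right
                have h5 : t + 1 + (b' - 1 - (t + 1)) = b' - 1 := by omega
                rwa [h5] at hk
            have hμadj : μ ∈ Algebra.adjoin F (Set.range (en (F := F) σ N (t + 1)
                (b' - 1 - (t + 1))) ∪
                  MvPolynomial.X '' {k : Fin n | k ∈ Zs σ (t + 1) ∨ k ∉ Zs σ (b' - 1)}) := by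
              rw [hμ, Matrix.det_apply']
              refine Subalgebra.sum_mem _ fun τ _ => Subalgebra.mul_mem _ ?_
                (Subalgebra.prod_mem _ fun i _ => hent _ _)
              exact Subalgebra.intCast_mem _ _
            have hctrl : Ctrl ((Zs σ (b' - 1) \ Zs σ (t + 1) : Finset (Fin n)) : Set (Fin n))
                (en (F := F) σ N (t + 1) (b' - 1 - (t + 1))) μ := by
              refine (ctrl_of_adjoin hμadj).mono ?_
              intro k hk
              rw [Finset.mem_coe, Finset.mem_sdiff] at hk
              simp only [Set.mem_compl_iff, Set.mem_ofPred_eq, not_or, not_not]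
              exact ⟨hk.2, hk.1⟩
            have h3 := ih' (t + 1) (b' - 1) (by omega) (by omega) hb'3 μ hctrl
              (fun p hp h1 h2 => hμI p hp (by omega) (by omega)) (1 + ρ) (by omega) h2
            have h4 : hy b0 L 1 (Zs σ b') μ = 0 := by
              have := hy_free b0 L hL le_rfl (Zs σ (b' - 1)) (σ ⟨b' - 1, hb'n⟩)
                (hμI (b' - 1) hb'n (by omega) (by omega)) h3
              rwa [← Zs_succ σ hb'n, Nat.sub_add_cancel (by omega)] at this
            refine hy_supported_eq_zero b0 L 1 ?_ h4
            rw [hμ, Matrix.det_apply']
            refine Subalgebra.sum_mem _ fun τ _ => Subalgebra.mul_mem _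
              (Subalgebra.intCast_mem _ _) (Subalgebra.prod_mem _ fun i _ => ?_)
            apply pderiv_mem_supported
            have := en_supp (F := F) σ N a' (b' - a') (g i)
            rwa [hab'] at this
          -- the differential relation for `Q`
          have hQ' : Ctrl ((Zs σ b' \ Zs σ a' : Finset (Fin n)) : Set (Fin n))
              (en (F := F) σ N a' (b' - a')) Q := by
            refine Ctrl.trans (J' := en (F := F) σ N a' (b - a')) ?_ ?_
            · intro q
              rw [hsplit4]
              have := ctrl_of_adjoin (en_split_left (F := F) σ N a' (b' - a') (b - b') q)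
              rw [hab'] at this
              refine this.mono ?_
              intro k hk
              rw [Finset.mem_coe, Finset.mem_sdiff] at hk
              simpa using hk.1
            · refine hQ.mono ?_
              intro k hk
              rw [Finset.mem_coe, Finset.mem_sdiff] at hk ⊢
              exact ⟨Zs_mono hb'b hk.1, hk.2⟩
          obtain ⟨u, hu⟩ := hQ'
          have hi0mem : i0 ∈ ((Zs σ b' \ Zs σ a' : Finset (Fin n)) : Set (Fin n)) := by
            rw [Finset.mem_coe, Finset.mem_sdiff]
            refine ⟨Zs_mono (show t + 1 ≤ b' by omega) ?_, hi0Za⟩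
            rw [hZ]; exact Finset.mem_insert_self _ _
          have hκmem : ∀ q, κ q ∈ ((Zs σ b' \ Zs σ a' : Finset (Fin n)) : Set (Fin n)) := by
            intro q
            have := Finset.mem_sdiff.1 (hκ q)
            rw [Finset.mem_coe, Finset.mem_sdiff]
            exact ⟨Zs_mono (by omega) this.1, this.2⟩
          have hpde : μ * MvPolynomial.pderiv i0 Q =
              ∑ q, m q * MvPolynomial.pderiv (κ q) Q := by
            rw [hu i0 hi0mem, Finset.mul_sum]
            have h7 : ∀ q, m q * MvPolynomial.pderiv (κ q) Q =
                ∑ i, u i * (m q * MvPolynomial.pderiv (κ q) (en (F := F) σ N a' (b' - a') i)) := by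
              intro q
              rw [hu (κ q) (hκmem q), Finset.mul_sum]
              apply Finset.sum_congr rfl
              intro i _
              ring
            simp only [h7]
            rw [Finset.sum_comm]
            apply Finset.sum_congr rfl
            intro i _
            rw [← Finset.mul_sum, ← hrel i]
            ring
          have h8 := hy_lossless b0 L _ hi0Z κ (fun q => (Finset.mem_sdiff.1 (hκ q)).1) m
            hpde h hnon
          rw [← hZ] at h8
          refine ihd (t + 1) (by omega) (by omega) j hj ?_
          rw [herε]
          exact h8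
    refine claim (b - a') a' (by omega) le_rfl j hj ?_
    refine hy_mono b0 L ?_ _ h0
    refine Nat.add_le_add_left (Nat.mul_le_mul_left ρ ?_) j
    simp only [lcost]
    omega

end

end Pool.Agent.H626R2.Orb
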