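import Mathlib
import Pool.Agent.H626R2.Orb.OLin

/-!
The generator does not kill products of matrices in linearly independent affine forms.
-/

namespace Pool.Agent.H626R2.Orb

open Module Pool.Agent.H530R2

section

variable {F : Type*} [Field F] {n : ℕ} {w : ℕ}

theorem mat_rank_zero {K : Type*} [Field K] (M : Matrix (Fin w) (Fin w) K) (h : M.rank = 0) :
    M = 0 := by
  classical
  unfold Matrix.rank at h
  have h1 := Submodule.finrank_eq_zero.1 h
  rw [LinearMap.range_eq_bot] at h1
  ext i j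
  have h2 := congrFun (LinearMap.congr_fun h1 (Pi.single j 1)) i
  simpa using h2

/-- the value of a linear program -/
noncomputable def pval (n : ℕ) (N : ℕ → Matrix (Fin w) (Fin w) (Polynomial F)) (u v : Fin w → F) :
    MvPolynomial (Fin n) F :=
  ∑ r, ∑ s, MvPolynomial.C (u r) * Pr (pv (Equiv.refl (Fin n)) : ℕ → MvPolynomial (Fin n) F)
    N 0 n r s * MvPolynomial.C (v s)

theorem otop [CharZero F] (b0 : Fin n → F) (L : Fin n → Polynomial F)
    (hL : LinearIndependent F L)
    (N : ℕ → Matrix (Fin w) (Fin w) (Polynomial F))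
    {ρ : ℕ} (φ : ℕ → Fin ρ → Polynomial F)
    (hφ : ∀ p < n, ∀ k ≤ w * w, ∀ g : Fin k → Fin w × Fin w,
      ∏ l, ey N p (g l) ∈ Submodule.span F (Set.range (φ p))) (u v : Fin w → F)
    (h : MvPolynomial.aeval (G b0 L (ρ * lcost w w + 1)) (pval n N u v) = 0) :
    pval n N u v = 0 := by
  classical
  by_contra hne
  have hw : 1 ≤ w := by
    by_contra hw
    have : w = 0 := by omega
    subst this
    apply hne
    unfold pval
    simp
  set σ : Equiv.Perm (Fin n) := Equiv.refl (Fin n) with hσ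
  have hen : ∀ r s, Pr (pv σ : ℕ → MvPolynomial (Fin n) F) N 0 n r s =
      en (F := F) σ N 0 (n - 0) (r, s) := by
    intro r s
    rw [Nat.sub_zero]
    rfl
  have hrk : 1 ≤ rk (pv σ : ℕ → MvPolynomial (Fin n) F) N 0 (n - 0) := by
    rw [Nat.sub_zero]
    by_contra h0
    have h1 : rk (pv σ : ℕ → MvPolynomial (Fin n) F) N 0 n = 0 := by omega
    unfold rk at h1
    replace h1 := mat_rank_zero _ h1
    apply hne
    unfold pval
    refine Finset.sum_eq_zero fun r _ => Finset.sum_eq_zero fun s _ => ?_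
    have h2 := congrFun (congrFun h1 r) s
    rw [Matrix.map_apply, Matrix.zero_apply] at h2
    have h3 : Pr (pv σ : ℕ → MvPolynomial (Fin n) F) N 0 n r s = 0 :=
      IsFractionRing.injective (MvPolynomial (Fin n) F)
        (FractionRing (MvPolynomial (Fin n) F)) (by rw [h2, map_zero])
    rw [h3, mul_zero, zero_mul]
  have hctrl : Ctrl ((Zs σ n \ Zs σ 0 : Finset (Fin n)) : Set (Fin n))
      (en (F := F) σ N 0 (n - 0)) (pval n N u v) := by
    refine (ctrl_of_adjoin (W := (∅ : Set (Fin n))) ?_).mono (by simp)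
    unfold pval
    refine Subalgebra.sum_mem _ fun r _ => Subalgebra.sum_mem _ fun s _ =>
      Subalgebra.mul_mem _ (Subalgebra.mul_mem _ (Subalgebra.algebraMap_mem _ _) ?_)
        (Subalgebra.algebraMap_mem _ _)
    rw [hen]
    exact Algebra.subset_adjoin (Or.inl ⟨(r, s), rfl⟩)
  have hInv : ∀ p (hp : p < n), 0 ≤ p → p < n →
      pval n N u v ∈ InV (σ ⟨p, hp⟩) (φ p) := by
    intro p hp _ _
    unfold pval
    refine Submodule.sum_mem _ fun r _ => Submodule.sum_mem _ fun s _ => ?_
    rw [mul_comm]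
    refine smul_mem_InV (Subalgebra.algebraMap_mem _ _)
      (smul_mem_InV (Subalgebra.algebraMap_mem _ _) ?_)
    rw [hen]
    have h1 := en_mem_EV (F := F) σ N 0 (n - 0) p (by omega) (by omega) hp (r, s)
    have h2 : InV (σ ⟨p, hp⟩) (ey N p) ≤ InV (σ ⟨p, hp⟩) (φ p) := by
      rw [← pow_one (InV (σ ⟨p, hp⟩) (ey N p))]
      exact pow_EV_le (hφ p hp 1 (by nlinarith))
    exact h2 h1
  have h0 : hy b0 L (1 + ρ * lcost w w) (Zs σ 0) (pval n N u v) = 0 := by
    rw [Zs_zero, hy_empty, add_comm 1]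
    exact h
  have h1 := olin b0 L hL σ N φ hφ w le_rfl 0 n (Nat.zero_le _) le_rfl
    (Or.inr (by omega)) (pval n N u v) hctrl hInv 1 le_rfl h0
  apply hne
  refine hy_supported_eq_zero b0 L 1 ?_ h1
  rw [Zs_last]
  simp

end

end Pool.Agent.H626R2.Orb
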