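import Mathlib
import Pool.Agent.H626R2.Orb.OTop

/-!
Families of functions containing all short products of layer entries.
-/

namespace Pool.Agent.H626R2.Orb

open Module

section

variable {F : Type*} [Field F] {w : ℕ}

/-- polynomials of bounded degree -/
theorem fam_deg {δ R : ℕ} (ψ : Fin w × Fin w → Polynomial F) (hψ : ∀ q, (ψ q).natDegree ≤ δ)
    (k : ℕ) (hk : k ≤ R) (g : Fin k → Fin w × Fin w) :
    ∏ l, ψ (g l) ∈ Submodule.span F
      (Set.range fun β : Fin (R * δ + 1) => (Polynomial.X : Polynomial F) ^ (β : ℕ)) := by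
  have hdeg : (∏ l, ψ (g l)).natDegree < R * δ + 1 := by
    refine Nat.lt_succ_of_le ((Polynomial.natDegree_prod_le _ _).trans ?_)
    calc ∑ l, (ψ (g l)).natDegree ≤ ∑ _l : Fin k, δ := Finset.sum_le_sum fun l _ => hψ _
      _ = k * δ := by simp
      _ ≤ R * δ := Nat.mul_le_mul_right δ hk
  rw [Polynomial.as_sum_range' _ _ hdeg]
  refine Submodule.sum_mem _ fun i hi => ?_
  rw [← Polynomial.C_mul_X_pow_eq_monomial, ← Polynomial.smul_eq_C_mul]
  exact Submodule.smul_mem _ _ (Submodule.subset_span ⟨⟨i, Finset.mem_range.1 hi⟩, rfl⟩)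

/-- the product of a multiset of entries, `none` standing for the constant function `1` -/
noncomputable def symProd (ψ : Fin w × Fin w → Polynomial F) {R : ℕ}
    (s : Sym (Option (Fin w × Fin w)) R) : Polynomial F :=
  ((s : Multiset (Option (Fin w × Fin w))).map (fun o => o.elim 1 ψ)).prod

theorem fam_sym {R : ℕ} (ψ : Fin w × Fin w → Polynomial F)
    (k : ℕ) (hk : k ≤ R) (g : Fin k → Fin w × Fin w) :
    ∃ s : Sym (Option (Fin w × Fin w)) R, symProd ψ s = ∏ l, ψ (g l) := by
  obtain ⟨d, rfl⟩ := Nat.exists_eq_add_of_le hk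
  refine ⟨⟨(Finset.univ : Finset (Fin k)).val.map (fun l => some (g l)) +
    Multiset.replicate d none, by simp⟩, ?_⟩
  unfold symProd
  simp [Finset.prod]
  rfl

theorem card_sym_fam (w : ℕ) :
    Fintype.card (Sym (Option (Fin w × Fin w)) (w * w)) = (w * w).centralBinom := by
  rw [Sym.card_sym_eq_choose]
  simp only [Fintype.card_option, Fintype.card_prod, Fintype.card_fin]
  rw [Nat.centralBinom_eq_two_mul_choose]
  congr 1
  omega

/-- number of functions of one variable -/
def nf (w : ℕ) : Option ℕ → ℕ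
  | none => (w * w).centralBinom
  | some δ => w * w * δ + 1

theorem exists_fam (o : Option ℕ) (ψ : Fin w × Fin w → Polynomial F)
    (hψ : ∀ δ, o = some δ → ∀ q, (ψ q).natDegree ≤ δ) :
    ∃ φ : Fin (nf w o) → Polynomial F, ∀ k ≤ w * w, ∀ g : Fin k → Fin w × Fin w,
      ∏ l, ψ (g l) ∈ Submodule.span F (Set.range φ) := by
  rcases o with _ | δ
  · let e : Fin (nf w none) ≃ Sym (Option (Fin w × Fin w)) (w * w) :=
      (Fintype.equivFinOfCardEq (card_sym_fam w)).symm
    refine ⟨fun β => symProd ψ (e β), fun k hk g => ?_⟩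
    obtain ⟨s, hs⟩ := fam_sym ψ k hk g
    refine Submodule.subset_span ⟨e.symm s, ?_⟩
    simp only [Equiv.apply_symm_apply]
    exact hs
  · refine ⟨fun β => Polynomial.X ^ (β : ℕ), fun k hk g => ?_⟩
    exact fam_deg ψ (hψ δ rfl) k hk g

end

end Pool.Agent.H626R2.Orb
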