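import Mathlib
import Pool.Agent.H626R2.Orb.OFun

/-!
The generator for an arbitrary type of variables with an injective numbering.
-/

namespace Pool.Agent.H626R2.Orb

open Module MvPolynomial

section

variable {F : Type*} [Field F] {τ : Type*}

/-- the generator of secants of the moment curve with `T` seed pairs, for the numbering `e` of the
variables -/
noncomputable def sgN (F : Type*) [Field F] (e : τ → ℕ) (T : ℕ) :
    MvPolynomial τ F →ₐ[F] MvPolynomial (Fin T ⊕ Fin T) F :=
  aeval fun k => ∑ t : Fin T, X (Sum.inl t) * X (Sum.inr t) ^ (e k)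

/-- the affine form with coefficients `a` and constant term `b` -/
noncomputable def affN (a : τ →₀ F) (b : F) : MvPolynomial τ F :=
  C b + a.sum fun k c => C c * X k

/-- the restriction of a linear form to the moment curve -/
noncomputable def LN (e : τ → ℕ) : (τ →₀ F) →ₗ[F] Polynomial F :=
  Finsupp.linearCombination F fun k => (Polynomial.X : Polynomial F) ^ (e k)

theorem LN_ker {e : τ → ℕ} (he : Function.Injective e) :
    LinearMap.ker (LN (F := F) e) = ⊥ := by
  have h1 : LinearIndependent F (fun k : ℕ => (Polynomial.X : Polynomial F) ^ k) := by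
    have := (Polynomial.basisMonomials F).linearIndependent
    have h2 : (Polynomial.basisMonomials F : ℕ → Polynomial F) = fun k => Polynomial.X ^ k := by
      funext k
      rw [Polynomial.coe_basisMonomials]
      exact (Polynomial.X_pow_eq_monomial k).symm
    rwa [h2] at this
  have h3 := h1.comp e he
  exact LinearMap.ker_eq_bot.2 h3

theorem LN_apply (e : τ → ℕ) (a : τ →₀ F) :
    LN e a = a.sum fun k c => Polynomial.C c * Polynomial.X ^ (e k) := by
  unfold LN
  rw [Finsupp.linearCombination_apply]
  simp only [Polynomial.smul_eq_C_mul]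

/-- embedding of the seed ring into the big ring -/
noncomputable def embN (F : Type*) [Field F] (m T : ℕ) :
    MvPolynomial (Fin T ⊕ Fin T) F →ₐ[F] BR F m :=
  rename (Sum.inr ∘ Sum.map Fin.val Fin.val)

theorem embN_sg_aff (e : τ → ℕ) (m T : ℕ) (b : Fin m → F) (A : Fin m → τ →₀ F) (i : Fin m) :
    embN F m T (sgN F e T (affN (A i) (b i))) = G b (fun i => LN e (A i)) T i := by
  have h1 : embN F m T (sgN F e T (affN (A i) (b i))) =
      C (b i) + ∑ k ∈ (A i).support, C (A i k) * ∑ t : Fin T, yv F m t * (zv F m t) ^ (e k) := by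
    unfold affN sgN embN Finsupp.sum
    simp only [map_add, map_sum, map_mul, aeval_X, map_pow, rename_X, MvPolynomial.algHom_C,
      MvPolynomial.algebraMap_eq]
    rfl
  rw [h1]
  unfold G
  congr 1
  have h2 : ∀ t : ℕ, Polynomial.aeval (zv F m t) (LN e (A i)) =
      ∑ k ∈ (A i).support, C (A i k) * (zv F m t) ^ (e k) := by
    intro t
    rw [LN_apply, Finsupp.sum, map_sum]
    apply Finset.sum_congr rfl
    intro k _
    rw [map_mul, map_pow, Polynomial.aeval_X, Polynomial.aeval_C, MvPolynomial.algebraMap_eq]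
  simp only [h2]
  rw [← Fin.sum_univ_eq_sum_range (fun t => yv F m t *
    ∑ k ∈ (A i).support, C (A i k) * (zv F m t) ^ (e k)) T]
  simp only [Finset.mul_sum]
  rw [Finset.sum_comm]
  apply Finset.sum_congr rfl
  intro t _
  apply Finset.sum_congr rfl
  intro k _
  ring

/-- number of seed pairs for programs of width `w` -/
def nseeds (w : ℕ) (o : Option ℕ) : ℕ := nf w o * Pool.Agent.H530R2.lcost w w + 1

/-- the generator does not kill a nonzero polynomial composed with independent affine forms,
if the polynomial is computed by a program -/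
theorem sgN_ne_zero [CharZero F] {m w : ℕ} (o : Option ℕ) {e : τ → ℕ}
    (he : Function.Injective e) (A : Fin m → τ →₀ F)
    (hA : LinearIndependent F A) (b : Fin m → F)
    (N : ℕ → Matrix (Fin w) (Fin w) (Polynomial F))
    (hN : ∀ δ, o = some δ → ∀ p r s, (N p r s).natDegree ≤ δ) (u v : Fin w → F)
    (h : sgN F e (nseeds w o) (aeval (fun i => affN (A i) (b i)) (pval m N u v)) = 0) :
    pval m N u v = 0 := by
  have hL : LinearIndependent F (fun i => LN e (A i)) := hA.map' (LN e) (LN_ker he)
  choose φ hφ using fun p => exists_fam o (ey N p) (fun δ hδ q => hN δ hδ p q.1 q.2)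
  refine otop b (fun i => LN e (A i)) hL N φ (fun p _ k hk g => hφ p k hk g) u v ?_
  have h1 := congrArg (embN F m (nseeds w o)) h
  rw [map_zero] at h1
  have h2 : ((embN F m (nseeds w o)).comp (sgN F e (nseeds w o))).comp
      (aeval (fun i => affN (A i) (b i))) =
      aeval (G b (fun i => LN e (A i)) (nseeds w o)) := by
    apply MvPolynomial.algHom_ext
    intro i
    rw [AlgHom.comp_apply, AlgHom.comp_apply, aeval_X, aeval_X, embN_sg_aff]
  have h3 : aeval (G b (fun i => LN e (A i)) (nseeds w o)) (pval m N u v) = 0 := by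
    rw [← h2]
    exact h1
  exact h3

/-- `f` is computed by a program of width `w` in linearly independent affine forms:
`f = u ⬝ (M 0)(ℓ 0) ⬝ (M 1)(ℓ 1) ⋯ (M (m-1))(ℓ (m-1)) ⬝ v`. -/
def IsAffProg (w : ℕ) (o : Option ℕ) (f : MvPolynomial τ F) : Prop :=
  ∃ (m : ℕ) (M : Fin m → Matrix (Fin w) (Fin w) (Polynomial F)) (u v : Fin w → F)
    (A : Fin m → τ →₀ F) (b : Fin m → F),
    LinearIndependent F A ∧ (∀ δ, o = some δ → ∀ k r s, (M k r s).natDegree ≤ δ) ∧
    f = ∑ r, ∑ s, C (u r) * (List.ofFn fun k : Fin m =>
      (M k).map (Polynomial.aeval (affN (A k) (b k)))).prod r s * C (v s)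

theorem pval_eq {m w : ℕ} (M : Fin m → Matrix (Fin w) (Fin w) (Polynomial F)) (u v : Fin w → F)
    (A : Fin m → τ →₀ F) (b : Fin m → F) :
    ∑ r, ∑ s, C (u r) * (List.ofFn fun k : Fin m =>
      (M k).map (Polynomial.aeval (affN (A k) (b k)))).prod r s * C (v s) =
    aeval (fun i => affN (A i) (b i))
      (pval m (fun p => if h : p < m then M ⟨p, h⟩ else 0) u v) := by
  classical
  set N : ℕ → Matrix (Fin w) (Fin w) (Polynomial F) := fun p => if h : p < m then M ⟨p, h⟩ else 0
    with hN
  have key : ∀ k : ℕ, ∀ hk : k ≤ m,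
      (List.ofFn fun l : Fin k => (M (Fin.castLE hk l)).map
        (Polynomial.aeval (affN (A (Fin.castLE hk l)) (b (Fin.castLE hk l))))).prod =
      (Pool.Agent.H530R2.Pr (Pool.Agent.H530R2.pv (Equiv.refl (Fin m)) :
        ℕ → MvPolynomial (Fin m) F) N 0 k).map (aeval (fun i => affN (A i) (b i))) := by
    intro k
    induction k with
    | zero =>
      intro _
      rw [List.ofFn_zero, List.prod_nil, Pool.Agent.H530R2.Pr_zero, Matrix.map_one]
      · exact map_zero _
      · exact map_one _
    | succ k ih =>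
      intro hk
      rw [List.ofFn_succ', List.concat_eq_append, List.prod_append, List.prod_singleton,
        Pool.Agent.H530R2.Pr_succ, Matrix.map_mul]
      have h0 := ih (by omega)
      have h1 : (List.ofFn fun i : Fin k => (M (Fin.castLE hk i.castSucc)).map
          (Polynomial.aeval (affN (A (Fin.castLE hk i.castSucc)) (b (Fin.castLE hk i.castSucc)))))
          = (List.ofFn fun l : Fin k => (M (Fin.castLE (by omega) l)).map
        (Polynomial.aeval (affN (A (Fin.castLE (by omega) l)) (b (Fin.castLE (by omega) l))))) := rfl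
      rw [h1, h0]
      congr 1
      unfold Pool.Agent.H530R2.Nh
      have h2 : N (0 + k) = M (Fin.castLE hk (Fin.last k)) := by
        rw [hN]
        simp only [zero_add]
        rw [dif_pos (show k < m by omega)]
        rfl
      have h3 : (Pool.Agent.H530R2.pv (Equiv.refl (Fin m)) (0 + k) : MvPolynomial (Fin m) F) =
          X (Fin.castLE hk (Fin.last k)) := by
        unfold Pool.Agent.H530R2.pv
        simp only [zero_add]
        rw [dif_pos (show k < m by omega)]
        rfl
      rw [h2, h3]
      ext r s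
      rw [Matrix.map_apply, Matrix.map_apply, Matrix.map_apply, ← Polynomial.aeval_algHom_apply,
        aeval_X]
  have key' := key m le_rfl
  unfold pval
  rw [map_sum]
  apply Finset.sum_congr rfl
  intro r _
  rw [map_sum]
  apply Finset.sum_congr rfl
  intro s _
  rw [map_mul, map_mul]
  have h5 := congrFun (congrFun key' r) s
  rw [Matrix.map_apply] at h5
  rw [← h5]
  simp only [MvPolynomial.algHom_C, MvPolynomial.algebraMap_eq]
  rfl

/-- programs in independent affine forms are not killed by the generator -/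
theorem IsAffProg.sg_ne_zero [CharZero F] {w : ℕ} {o : Option ℕ} {f : MvPolynomial τ F}
    (hf : IsAffProg w o f) (h0 : f ≠ 0) {e : τ → ℕ} (he : Function.Injective e) :
    sgN F e (nseeds w o) f ≠ 0 := by
  obtain ⟨m, M, u, v, A, b, hA, hdeg, rfl⟩ := hf
  rw [pval_eq] at h0 ⊢
  intro h
  apply h0
  rw [sgN_ne_zero o he A hA b _ ?_ u v h, map_zero]
  intro δ hδ p r s
  by_cases hp : p < m
  · simp only [hp, dif_pos]
    exact hdeg δ hδ _ _ _
  · simp [hp]

/-- divisors of products of programs are not killed by the generator -/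
theorem sg_ne_zero_of_dvd [CharZero F] {w : ℕ} {o : Option ℕ} {f : MvPolynomial τ F}
    {r : ℕ} (g : Fin r → MvPolynomial τ F) (hg : ∀ j, IsAffProg w o (g j))
    (h0 : (∏ j, g j) ≠ 0) (hd : f ∣ ∏ j, g j) {e : τ → ℕ} (he : Function.Injective e) :
    sgN F e (nseeds w o) f ≠ 0 := by
  intro h
  have h1 : sgN F e (nseeds w o) (∏ j, g j) = 0 := by
    obtain ⟨q, hq⟩ := hd
    rw [hq, map_mul, h, zero_mul]
  rw [map_prod, Finset.prod_eq_zero_iff] at h1
  obtain ⟨j, _, hj⟩ := h1
  exact (hg j).sg_ne_zero (fun h2 => h0 (Finset.prod_eq_zero (Finset.mem_univ j) h2)) he hj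

end

end Pool.Agent.H626R2.Orb
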