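import Mathlib
import Pool.Agent.H626R2.Orb.OGen
import Pool.Agent.H531R2.Final

/-!
The decision procedure for circuits computing (divisors of products of) programs of constant width
in linearly independent affine forms.
-/

set_option autoImplicit false

namespace Pool.Agent.H626R2.Orb

open MvPolynomial Pool.Agent.H531R2 Pool.Agent.NPC

/-- `f` has total degree at most `n`, its coefficients have absolute values adding up to at most
`2 ^ n`, and `f` divides over the complex numbers a nonzero product of any number of polynomials,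
each computed by a program of width `w` in linearly independent affine forms (with layers of
degree at most `δ` if `o = some δ`). -/
def OrbTame (w : ℕ) (o : Option ℕ) (n : ℕ) (f : MvPolynomial ℕ ℤ) : Prop :=
  f.totalDegree ≤ n ∧ nrm f ≤ 2 ^ n ∧
    ∃ (r : ℕ) (g : Fin r → MvPolynomial ℕ ℂ), (∀ j, IsAffProg w o (g j)) ∧
      ∏ j, g j ≠ 0 ∧ map (Int.castRingHom ℂ) f ∣ ∏ j, g j

theorem aeval_eq_sum' {ι : Type} {w : ℕ} (Y : ι → MvPolynomial (Fin w) ℤ)
    (g : MvPolynomial ι ℤ) :
    aeval Y g = ∑ m ∈ g.support, C (coeff m g) * ∏ b ∈ m.support, Y b ^ m b := by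
  conv_lhs => rw [g.as_sum, map_sum]
  refine Finset.sum_congr rfl fun m _ => ?_
  rw [aeval_monomial, algebraMap_eq, Finsupp.prod]

theorem nrm_aeval_le' {ι : Type} {w : ℕ} (Y : ι → MvPolynomial (Fin w) ℤ)
    (g : MvPolynomial ι ℤ) {B d : ℕ}
    (hB : 1 ≤ B) (hY : ∀ b, nrm (Y b) ≤ B) (hd : g.totalDegree ≤ d) :
    nrm (aeval Y g) ≤ nrm g * B ^ d := by
  rw [aeval_eq_sum']
  refine (nrm_sum _ _).trans ?_
  rw [nrm, Finset.sum_mul]
  refine Finset.sum_le_sum fun m hm => ?_
  refine (nrm_mul _ _).trans (Nat.mul_le_mul (nrm_C _) ?_)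
  have h1 : nrm (∏ b ∈ m.support, Y b ^ m b) ≤ ∏ b ∈ m.support, B ^ m b := by
    have : ∀ s : Finset ι, nrm (∏ b ∈ s, Y b ^ m b) ≤ ∏ b ∈ s, B ^ m b := by
      intro s
      classical
      induction s using Finset.induction_on with
      | empty => simpa using nrm_one
      | insert a s ha ih =>
        rw [Finset.prod_insert ha, Finset.prod_insert ha]
        exact (nrm_mul _ _).trans (Nat.mul_le_mul (nrm_pow_le _ (hY a) _) ih)
    exact this _
  refine h1.trans ?_
  rw [Finset.prod_pow_eq_pow_sum]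
  exact Nat.pow_le_pow_right hB ((le_totalDegree hm).trans hd)

theorem totalDegree_aeval_le' {ι : Type} {w : ℕ} (Y : ι → MvPolynomial (Fin w) ℤ)
    (g : MvPolynomial ι ℤ) {D d : ℕ} (hY : ∀ b, (Y b).totalDegree ≤ D)
    (hd : g.totalDegree ≤ d) : (aeval Y g).totalDegree ≤ d * D := by
  rw [aeval_eq_sum']
  apply totalDegree_sum_le
  intro m hm
  refine (totalDegree_C_mul_le _ _).trans ?_
  refine (totalDegree_finsetProd _ _).trans ?_
  calc ∑ b ∈ m.support, (Y b ^ m b).totalDegree ≤ ∑ b ∈ m.support, m b * D :=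
        Finset.sum_le_sum fun b _ => (totalDegree_pow _ _).trans (Nat.mul_le_mul_left _ (hY b))
    _ = m.degree * D := by rw [← Finset.sum_mul]; rfl
    _ ≤ d * D := Nat.mul_le_mul_right _
          ((le_totalDegree hm).trans hd)

theorem totalDegree_gen (v : ℕ) (i : ℕ) :
    (∑ t : Fin v, (X (Fin.castAdd v t) * X (Fin.natAdd v t) ^ i :
      MvPolynomial (Fin (v + v)) ℤ)).totalDegree ≤ i + 1 := by
  apply totalDegree_sum_le
  intro t _
  refine (totalDegree_mul _ _).trans ?_
  have h1 : (X (Fin.natAdd v t) ^ i : MvPolynomial (Fin (v + v)) ℤ).totalDegree ≤ i := by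
    refine (totalDegree_pow _ _).trans ?_
    rw [totalDegree_X, mul_one]
  rw [totalDegree_X]
  omega

theorem nrm_gen (v : ℕ) (i : ℕ) :
    nrm (∑ t : Fin v, (X (Fin.castAdd v t) * X (Fin.natAdd v t) ^ i :
      MvPolynomial (Fin (v + v)) ℤ)) ≤ v := by
  refine (nrm_sum _ _).trans ?_
  refine (Finset.sum_le_card_nsmul Finset.univ _ 1 fun t _ => ?_).trans (by simp)
  refine (nrm_mul _ _).trans ?_
  have h1 := nrm_X_le (Fin.castAdd v t)
  have h2 := nrm_pow_le (X (Fin.natAdd v t) : MvPolynomial (Fin (v + v)) ℤ)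
    (nrm_X_le (Fin.natAdd v t)) i
  rw [one_pow] at h2
  exact (Nat.mul_le_mul h1 h2).trans (by norm_num)

/-- the substitution depends only on the numbering of the variables that occur -/
theorem Th_congr (v : ℕ) (e e' : ℕ → ℕ) (f : MvPolynomial ℕ ℤ) (h : ∀ j ∈ f.vars, e j = e' j) :
    Th v e f = Th v e' f := by
  unfold Th
  rw [aeval_def, aeval_def, ← coe_eval₂Hom, ← coe_eval₂Hom]
  apply eval₂Hom_congr' rfl _ rfl
  intro j hj _
  rw [h j hj]

theorem sgN_eq_Th (v : ℕ) (e : ℕ → ℕ) (f : MvPolynomial ℕ ℤ) :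
    rename finSumFinEquiv (sgN ℂ e v (map (Int.castRingHom ℂ) f)) =
      map (Int.castRingHom ℂ) (Th v e f) := by
  have h : ((rename finSumFinEquiv : MvPolynomial (Fin v ⊕ Fin v) ℂ →ₐ[ℂ]
      MvPolynomial (Fin (v + v)) ℂ).toRingHom.comp
      ((sgN ℂ e v).toRingHom.comp (map (Int.castRingHom ℂ)))) =
      (map (Int.castRingHom ℂ)).comp (Th v e).toRingHom := by
    apply MvPolynomial.ringHom_ext
    · intro z
      simp [sgN, Th]
    · intro j
      simp [sgN, Th]
  exact congrFun (congrArg DFunLike.coe h) f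

theorem ex_ge (v n m : ℕ) : n + n * (n * m + n * v) ≤ Ex v n m := by
  unfold Ex
  apply Nat.add_le_add_left
  apply Nat.mul_le_mul_left
  have h1 : HH v n m ≤ E1 (v + v) (HH v n m) := by
    unfold E1
    omega
  refine le_trans ?_ h1
  unfold HH mm
  rw [← Nat.mul_add]
  apply Nat.mul_le_mul_left
  omega

/-- the hitting property -/
theorem hit3 {w : ℕ} {o : Option ℕ} {n : ℕ} {f : MvPolynomial ℕ ℤ} (hf : OrbTame w o n f)
    (V : Finset ℕ) (hV : f.vars ⊆ V) (idx : ℕ → ℕ) (hidx : Set.InjOn idx V) (m : ℕ)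
    (hlt : ∀ j ∈ V, idx j < m) :
    ∀ p : ℕ, p.Prime → PP (nseeds w o) n m ≤ p →
      ∃ a : Fin (nseeds w o + nseeds w o) → ℕ, (∀ t, a t < p ^ 2) ∧
        ¬ ((p : ℤ) ^ (Ex (nseeds w o) n m + 1) ∣
        eval (fun j => ∑ t : Fin (nseeds w o), (a (Fin.castAdd (nseeds w o) t) : ℤ) *
          (a (Fin.natAdd (nseeds w o) t) : ℤ) ^ idx j) f) := by
  classical
  obtain ⟨hdeg, hnrm, r, g, hg, hg0, hdvd⟩ := hf
  set v := nseeds w o with hv
  have hv1 : 1 ≤ v := by rw [hv]; unfold nseeds; omega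
  intro p hp hpP
  -- a globally injective numbering
  set e : ℕ → ℕ := fun j => if j ∈ V then idx j else m + j with he
  have heinj : Function.Injective e := by
    intro i j hij
    simp only [he] at hij
    by_cases hi : i ∈ V <;> by_cases hj : j ∈ V
    · rw [if_pos hi, if_pos hj] at hij
      exact hidx hi hj hij
    · rw [if_pos hi, if_neg hj] at hij
      have := hlt i hi
      omega
    · rw [if_neg hi, if_pos hj] at hij
      have := hlt j hj
      omega
    · rw [if_neg hi, if_neg hj] at hij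
      omega
  have hne := sg_ne_zero_of_dvd g hg hg0 hdvd heinj
  have hTe : Th v e f ≠ 0 := by
    intro h0
    apply hne
    have h1 := sgN_eq_Th v e f
    rw [h0, map_zero] at h1
    exact rename_injective _ finSumFinEquiv.injective (by rw [map_zero]; exact h1)
  set e0 : ℕ → ℕ := fun j => if j ∈ V then idx j else 0 with he0
  have hcong1 : Th v e f = Th v e0 f := by
    apply Th_congr
    intro j hj
    simp only [he, he0, if_pos (hV hj)]
  have hcong2 : Th v e f = Th v idx f := by
    apply Th_congr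
    intro j hj
    simp only [he, if_pos (hV hj)]
  have hTd : (Th v e f).totalDegree ≤ n * (m + 1) := by
    rw [hcong1]
    refine totalDegree_aeval_le' _ f (fun b => (totalDegree_gen v (e0 b)).trans ?_) hdeg
    simp only [he0]
    split_ifs with hb
    · have := hlt b hb
      omega
    · omega
  have hTn : nrm (Th v e f) ≤ 2 ^ n * v ^ n :=
    (nrm_aeval_le' _ f hv1 (fun b => nrm_gen v (e b)) hdeg).trans
      (Nat.mul_le_mul_right _ hnrm)
  set Φ := Th v e f with hΦ
  -- split off the power of `p`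
  have hnotunit : ¬ IsUnit (C (p : ℤ) : MvPolynomial (Fin (v + v)) ℤ) := by
    intro hu
    have h1 := (MvPolynomial.isUnit_iff_eq_C_of_isReduced.1 hu)
    obtain ⟨r', hr', hr''⟩ := h1
    have h2 : (p : ℤ) = r' := C_injective _ _ hr''
    rw [← h2, Int.isUnit_iff] at hr'
    have := hp.two_le
    omega
  have hfin : FiniteMultiplicity (C (p : ℤ) : MvPolynomial (Fin (v + v)) ℤ) Φ :=
    FiniteMultiplicity.of_not_isUnit hnotunit hTe
  obtain ⟨φ, hφ1, hφ2⟩ := hfin.exists_eq_pow_mul_and_not_dvd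
  set k := multiplicity (C (p : ℤ) : MvPolynomial (Fin (v + v)) ℤ) Φ with hk
  have hexge := ex_ge v n m
  have hkE : k ≤ Ex v n m := by
    have h1 : (C ((p : ℤ) ^ k) : MvPolynomial (Fin (v + v)) ℤ) ∣ Φ := by
      rw [C_pow]
      exact ⟨φ, hφ1⟩
    have h2 := natAbs_le_nrm hTe h1
    have h3 : p ^ k ≤ 2 ^ n * v ^ n := by
      have h4 : ((p : ℤ) ^ k).natAbs = p ^ k := by
        rw [Int.natAbs_pow, Int.natAbs_natCast]
      rw [h4] at h2
      exact h2.trans hTn
    have h5 : 2 ^ k ≤ 2 ^ (n + n * v) := by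
      calc 2 ^ k ≤ p ^ k := Nat.pow_le_pow_left hp.two_le k
        _ ≤ 2 ^ n * v ^ n := h3
        _ ≤ 2 ^ n * (2 ^ v) ^ n := Nat.mul_le_mul_left _
            (Nat.pow_le_pow_left (Nat.lt_two_pow_self).le n)
        _ = 2 ^ (n + n * v) := by rw [← pow_mul, ← pow_add, mul_comm v n]
    have h6 : k ≤ n + n * v := (Nat.pow_le_pow_iff_right (by norm_num)).1 h5
    refine h6.trans (le_trans ?_ hexge)
    apply Nat.add_le_add_left
    rcases Nat.eq_zero_or_pos n with h0 | h0
    · rw [h0]; simp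
    · apply Nat.mul_le_mul_left
      have : v ≤ n * v := Nat.le_mul_of_pos_left v h0
      omega
  have hφ0 : φ ≠ 0 := by
    rintro rfl
    exact hφ2 (dvd_zero _)
  have hpow0 : (C (p : ℤ) : MvPolynomial (Fin (v + v)) ℤ) ^ k ≠ 0 := by
    apply pow_ne_zero
    rw [Ne, C_eq_zero]
    exact_mod_cast hp.ne_zero
  have hφd : φ.totalDegree ≤ n * (m + 1) := by
    refine le_trans ?_ hTd
    rw [hφ1, totalDegree_mul_of_isDomain hpow0 hφ0]
    omega
  have hPP : n * (m + 1) < p := by
    refine lt_of_lt_of_le ?_ hpP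
    unfold PP
    rcases Nat.eq_zero_or_pos n with h0 | h0
    · rw [h0]; omega
    · have h1 : n * (m + 1) ≤ n * n * HH v n m := by
        rw [mul_assoc]
        apply Nat.mul_le_mul_left
        refine le_trans ?_ (Nat.le_mul_of_pos_left _ h0)
        unfold HH mm
        refine le_trans ?_ (Nat.le_mul_of_pos_left _ h0)
        omega
      omega
  obtain ⟨x, hx, hxφ⟩ := exists_point hp hφ2 (d := n * (m + 1)) (fun m' hm' => by
    have h0 : coeff m' φ = 0 := by
      by_contra hne'
      exact absurd (degree_le_totalDegree hne') (not_le.2 (lt_of_le_of_lt hφd hm'))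
    rw [h0]
    exact dvd_zero _) hPP
  refine ⟨x, fun t => lt_of_lt_of_le (hx t) ?_, ?_⟩
  · rw [sq]
    exact Nat.le_mul_of_pos_left _ hp.pos
  · intro h
    have h1 : eval (fun a => (x a : ℤ)) Φ =
        eval (fun j => ∑ t : Fin v, (x (Fin.castAdd v t) : ℤ) *
          (x (Fin.natAdd v t) : ℤ) ^ idx j) f := by
      rw [hcong2]
      have h2 : ((eval (fun t => (x t : ℤ)) :
          MvPolynomial (Fin (v + v)) ℤ →+* ℤ).comp (Th v idx).toRingHom)
          = eval (fun j => ∑ t : Fin v, (x (Fin.castAdd v t) : ℤ) *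
          (x (Fin.natAdd v t) : ℤ) ^ idx j) := by
        apply MvPolynomial.ringHom_ext
        · intro z
          simp [Th]
        · intro j
          simp [Th]
      rw [← h2]; rfl
    rw [← h1, hφ1, map_mul, map_pow, eval_C] at h
    have h3 : (p : ℤ) ^ (k + 1) ∣ (p : ℤ) ^ k * eval (fun a => (x a : ℤ)) φ :=
      (pow_dvd_pow _ (by omega)).trans h
    rw [pow_succ] at h3
    have h4 : (p : ℤ) ^ k ≠ 0 := pow_ne_zero _ (by exact_mod_cast hp.ne_zero)
    exact hxφ ((mul_dvd_mul_iff_left h4).1 h3)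

/-- The test rejects all circuits of polynomials in the class. -/
theorem test_of_orb {w : ℕ} {o : Option ℕ} {n m : ℕ} (P R : List ℕ) (C : List Gate)
    (hm : C.length ≤ m)
    (hP : ∀ p ≤ XX (nseeds w o) n m, p ∈ P) (hR : ∀ a < XX (nseeds w o) n m ^ 2, a ∈ R)
    (hf : OrbTame w o n (cpoly C)) : test (nseeds w o) P R (Ex (nseeds w o) n m + 1) C = false := by
  have hΔp := hit3 hf (cvars C) (vars_cpoly C) (Pool.Agent.H531R2.idx C) (idx_injOn C) m
    (fun j hj => (idx_lt hj).trans_le hm)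
  obtain ⟨p, hp, -, hpm, hpX⟩ := prime_choice (PP (nseeds w o) n m) (DD (nseeds w o) n) 1
    one_ne_zero Nat.one_le_two_pow
  obtain ⟨a, ha, had⟩ := hΔp p hp hpm
  by_contra h
  rw [Bool.not_eq_false, test, Bool.and_eq_true, List.all_eq_true] at h
  have hpX' : p ≤ XX (nseeds w o) n m := hpX
  have h1 := h.2 (p - 2) (hP _ (by omega))
  rw [List.all_eq_true] at h1
  have hpR : ∀ z < p ^ 2, z ∈ R := fun z hz =>
    hR z (lt_of_lt_of_le hz (Nat.pow_le_pow_left hpX' 2))
  have h2 := h1 (List.ofFn fun t : Fin (nseeds w o) => (a (Fin.castAdd (nseeds w o) t),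
      a (Fin.natAdd (nseeds w o) t))) (by
    rw [mem_pts]
    refine ⟨by simp, ?_⟩
    intro z hz
    rw [List.mem_ofFn] at hz
    obtain ⟨t, rfl⟩ := hz
    rw [mem_prs]
    exact ⟨hpR _ (ha _), hpR _ (ha _)⟩)
  rw [decide_eq_true_eq, nlast_eq_zero_iff] at h2
  apply had
  have h3 : p - 2 + 2 = p := Nat.sub_add_cancel hp.two_le
  have h4 : p ^ (Ex (nseeds w o) n m + 1) - 1 + 1 = p ^ (Ex (nseeds w o) n m + 1) :=
    Nat.sub_add_cancel (Nat.one_le_pow _ _ hp.pos)
  rw [h3, h4] at h2
  have h5 : (fun j => ∑ t : Fin (nseeds w o), (a (Fin.castAdd (nseeds w o) t) : ℤ) *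
      (a (Fin.natAdd (nseeds w o) t) : ℤ) ^ Pool.Agent.H531R2.idx C j)
      = pt C (List.ofFn fun t : Fin (nseeds w o) => (a (Fin.castAdd (nseeds w o) t),
        a (Fin.natAdd (nseeds w o) t))) := by
    funext j
    rw [pt_ofFn]
  rw [h5]
  exact_mod_cast h2

/-- The main theorem. -/
theorem main_orb (w : ℕ) (o : Option ℕ) (c : ℕ) : ∃ A : List Bool → List Bool, PolyTime A ∧
    (∀ x, A x = [true] ∨ A x = [false]) ∧
    (∀ x ∈ ACIT, A x = [true]) ∧
    (∀ x, (∀ C : List Gate, WF C → bits C ≠ x) → A x = [false]) ∧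
    ∀ C : List Gate, OrbTame w o ((bits C).length ^ c) (cpoly C) → A (bits C) = [false] := by
  refine ⟨fun x => [alg (nseeds w o) c x], polyTime_of_poly (poly_alg (nseeds w o) c),
    ?_, ?_, ?_, ?_⟩
  · intro x
    cases h : alg (nseeds w o) c x
    · right; simp [h]
    · left; simp [h]
  · rintro x ⟨C, rfl, hC, h0⟩
    simp only [alg, unbits_bits, Option.elim]
    rw [test_of_zero (nseeds w o) _ _ _ C hC h0]
  · intro x hx
    simp only [alg]
    cases h : unbits (List Gate) x with
    | none => rfl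
    | some C =>
      have h1 : ¬ WF C := fun hC => hx C hC (bits_of_unbits h)
      simp only [Option.elim]
      rw [← wfB_iff, Bool.not_eq_true] at h1
      rw [test, h1, Bool.false_and]
  · intro C hC
    simp only [alg, unbits_bits, Option.elim]
    rw [test_of_orb _ _ C (m := (bits C).length) ?_ ?_ ?_ hC]
    · rw [bits_length]
      exact (length_lt_sz C).le
    · intro p hp
      rw [List.mem_range]
      omega
    · intro a ha
      rw [List.mem_range]
      exact ha

end Pool.Agent.H626R2.Orb
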